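import Mathlib

/-! C1 (90 minutes). Hermite-Pade approximants `P₀ + X^N P₁ + X^(2N) P₂` vanishing at 1 to the
highest possible order, with small integer coefficients.
PROOF. (1) For `n` and a finite set `Z` of natural numbers put
`LP n Z = ∑ t ≤ n, (-1)^t C(n,t) (∏ c ∈ Z, (t - c)) X^t`. It is obtained from `(1 - X)^n` by
applying the operators `F ↦ X F' - c F` (`c ∈ Z`), and each such operator maps multiples of
`(1 - X)^(m+1)` to multiples of `(1 - X)^m`. So `(1 - X)^(n - card Z) ∣ LP n Z` (`card Z ≤ n`).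
(2) Let `n = 2N + k₂`, `Z = {k₀+1, .., N-1} ∪ {N+k₁+1, .., 2N-1}`, `L₁ = N-1-k₀`,
`L₂ = N-1-k₁`, `n - card Z = k₀+k₁+k₂+2`. The coefficient of `X^t` vanishes for `t ∈ Z`. For
`t ∉ Z` the product over the first gap is `± L₁! C(e, L₁)` with `e = N-1-t` (`t ≤ k₀`) or
`e = t-k₀-1` (`t ≥ N`), the second similarly, so `LP n Z = L₁! L₂! F` with `F : ℤ[X]` whose
coefficients are nonzero outside `Z` and at most `2^n 2^n 2^n = 8^n` in absolute value. As
`(1 - X)^V` is monic up to sign and `L₁! L₂! ≠ 0`, it divides `F`. (`Ring.choose` or explicit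
case distinctions for the products.)
(3) `F = P₀ + X^N P₁ + X^(2N) P₂` with `Pᵢ` the three blocks of coefficients. -/

open Polynomial

namespace ETT

/-- the product over a gap, divided by the factorial -/
private def c1D (a b t : ℕ) : ℤ :=
  if t < a then (-1) ^ (b - a) * ((b - 1 - t).choose (b - a) : ℤ) else if t < b then 0 else ((t - a).choose (b - a) : ℤ)

private theorem c1D_prod {a b : ℕ} (hab : a ≤ b) (t : ℕ) :
    ∏ c ∈ Finset.Ico a b, ((t : ℤ) - c) = ((b - a).factorial : ℤ) * c1D a b t := by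
  unfold c1D
  split_ifs with h1 h2
  · have e1 : ∀ i ∈ Finset.range (b - a), ((t : ℤ) - ((a + i : ℕ) : ℤ)) = (-1) * (((a - t + i : ℕ)) : ℤ) := by
      intro i _
      rw [Nat.cast_add, Nat.cast_add, Nat.cast_sub h1.le]
      ring
    rw [Finset.prod_Ico_eq_prod_range, Finset.prod_congr rfl e1, Finset.prod_mul_distrib, Finset.prod_const,
      Finset.card_range, ← Nat.cast_prod, ← Nat.ascFactorial_eq_prod_range]
    have e2 : a - t = (a - t - 1) + 1 := by omega
    have e3 : a - t - 1 + (b - a) = b - 1 - t := by omega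
    rw [e2, Nat.ascFactorial_eq_factorial_mul_choose, e3]
    push_cast
    ring
  · rw [mul_zero]
    refine Finset.prod_eq_zero (i := t) (Finset.mem_Ico.2 ⟨by omega, h2⟩) (sub_self _)
  · have e1 : ∀ i ∈ Finset.range (b - a), ((t : ℤ) - ((a + i : ℕ) : ℤ)) = (((t - a - i : ℕ)) : ℤ) := by
      intro i hi
      have := Finset.mem_range.1 hi
      omega
    rw [Finset.prod_Ico_eq_prod_range, Finset.prod_congr rfl e1, ← Nat.cast_prod, ← Nat.descFactorial_eq_prod_range,
      Nat.descFactorial_eq_factorial_mul_choose]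
    push_cast
    ring

private theorem c1D_ne {a b t : ℕ} (hab : a ≤ b) (h : t < a ∨ b ≤ t) : c1D a b t ≠ 0 := by
  unfold c1D
  split_ifs with h1 h2
  · refine mul_ne_zero (pow_ne_zero _ (by norm_num)) ?_
    have : 0 < (b - 1 - t).choose (b - a) := Nat.choose_pos (by omega)
    exact_mod_cast this.ne'
  · omega
  · have : 0 < (t - a).choose (b - a) := Nat.choose_pos (by omega)
    exact_mod_cast this.ne'

private theorem c1D_zero {a b t : ℕ} (h1 : a ≤ t) (h2 : t < b) : c1D a b t = 0 := by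
  unfold c1D
  rw [if_neg (by omega), if_pos h2]

private theorem c1D_le {a b t n : ℕ} (hb : b ≤ n + 1) (ht : t ≤ n) : |c1D a b t| ≤ 2 ^ n := by
  have key : ∀ m L : ℕ, m ≤ n → |((m.choose L : ℕ) : ℤ)| ≤ 2 ^ n := by
    intro m L hm
    rw [abs_of_nonneg (by positivity)]
    have h1 : m.choose L ≤ 2 ^ n := (Nat.choose_le_two_pow m L).trans (Nat.pow_le_pow_right (by norm_num) hm)
    exact_mod_cast h1
  unfold c1D
  split_ifs with h1 h2
  · rw [abs_mul, abs_pow, abs_neg, abs_one, one_pow, one_mul]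
    exact key _ _ (by omega)
  · rw [abs_zero]
    positivity
  · exact key _ _ (by omega)

/-- the polynomial with given coefficients -/
private noncomputable def c1P (f : ℕ → ℤ) (m : ℕ) : ℤ[X] := ∑ t ∈ Finset.range m, C (f t) * X ^ t

private theorem c1P_coeff (f : ℕ → ℤ) (m j : ℕ) : (c1P f m).coeff j = if j < m then f j else 0 := by
  unfold c1P
  rw [finsetSum_coeff]
  simp only [coeff_C_mul, coeff_X_pow, mul_ite, mul_one, mul_zero]
  rw [Finset.sum_ite_eq]
  simp only [Finset.mem_range]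

private theorem c1P_deg (f : ℕ → ℤ) (k : ℕ) (h : f k ≠ 0) : (c1P f (k + 1)).natDegree = k := by
  refine le_antisymm ?_ ?_
  · rw [natDegree_le_iff_coeff_eq_zero]
    intro j hj
    rw [c1P_coeff, if_neg (by omega)]
  · refine le_natDegree_of_ne_zero ?_
    rw [c1P_coeff, if_pos (by omega)]
    exact h

/-- the operator `X F' - c F` -/
private theorem c1_op (m c : ℕ) (G : ℤ[X]) (h : (1 - X) ^ (m + 1) ∣ G) :
    (1 - X) ^ m ∣ X * derivative G - C (c : ℤ) * G := by
  obtain ⟨H, rfl⟩ := h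
  refine ⟨X * (C (-((m : ℤ) + 1)) * H + (1 - X) * derivative H) - C (c : ℤ) * ((1 - X) * H), ?_⟩
  rw [derivative_mul, derivative_pow, derivative_sub, derivative_one, derivative_X, Nat.add_sub_cancel]
  simp only [Nat.cast_add, Nat.cast_one, map_neg, map_add, map_natCast, map_one, pow_succ]
  ring

private noncomputable def c1f (n : ℕ) (Z : Finset ℕ) (t : ℕ) : ℤ :=
  (-1) ^ t * (n.choose t : ℤ) * ∏ c ∈ Z, ((t : ℤ) - c)

private theorem c1_dvd (n : ℕ) (Z : Finset ℕ) : ∀ m : ℕ, m + Z.card = n → (1 - X) ^ m ∣ c1P (c1f n Z) (n + 1) := by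
  induction Z using Finset.induction_on with
  | empty =>
    intro m hm
    rw [Finset.card_empty, add_zero] at hm
    subst hm
    have h1 : c1P (c1f m ∅) (m + 1) = (1 - X) ^ m := by
      have h2 : (1 - X : ℤ[X]) = -X + 1 := by ring
      rw [h2, add_pow]
      unfold c1P c1f
      refine Finset.sum_congr rfl fun t _ => ?_
      rw [Finset.prod_empty, mul_one, one_pow, mul_one, neg_pow (X : ℤ[X]), map_mul, map_pow, map_neg, map_one]
      simp only [map_natCast]
      ring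
    rw [h1]
  | insert a Z ha ih =>
    intro m hm
    rw [Finset.card_insert_of_notMem ha] at hm
    have h1 := c1_op m a _ (ih (m + 1) (by omega))
    have h2 : c1P (c1f n (insert a Z)) (n + 1) =
        X * derivative (c1P (c1f n Z) (n + 1)) - C (a : ℤ) * c1P (c1f n Z) (n + 1) := by
      ext j
      rw [coeff_sub, coeff_C_mul, c1P_coeff, c1P_coeff]
      rcases j with _ | j
      · rw [coeff_X_mul_zero]
        simp only [Nat.zero_lt_succ, if_true]
        unfold c1f
        rw [Finset.prod_insert ha]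
        push_cast
        ring
      · rw [coeff_X_mul, coeff_derivative, c1P_coeff]
        by_cases hj : j + 1 < n + 1
        · rw [if_pos hj, if_pos hj]
          unfold c1f
          rw [Finset.prod_insert ha]
          push_cast
          ring
        · rw [if_neg hj, if_neg hj]
          ring
    rw [h2]
    exact h1

private theorem c1_cancel (m : ℕ) (K : ℤ) (hK : K ≠ 0) (G : ℤ[X]) (h : (1 - X) ^ m ∣ C K * G) : (1 - X) ^ m ∣ G := by
  have hM : (X - C (1 : ℤ)).Monic := monic_X_sub_C 1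
  have hMm : ((X - C (1 : ℤ)) ^ m).Monic := hM.pow m
  have e1 : (1 - X : ℤ[X]) ^ m = (-1) ^ m * (X - C (1 : ℤ)) ^ m := by
    rw [← mul_pow, map_one]
    congr 1
    ring
  have hu : IsUnit ((-1 : ℤ[X]) ^ m) := (isUnit_one.neg).pow m
  rw [e1] at h ⊢
  rw [hu.mul_left_dvd] at h ⊢
  rw [← modByMonic_eq_zero_iff_dvd hMm] at h ⊢
  rw [← smul_eq_C_mul, smul_modByMonic] at h
  exact (smul_eq_zero.1 h).resolve_left hK

theorem approximant (N k₀ k₁ k₂ : ℕ) (h0 : k₀ + 1 ≤ N) (h1 : k₁ + 1 ≤ N) :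
    ∃ P₀ P₁ P₂ : ℤ[X], P₀.natDegree = k₀ ∧ P₁.natDegree = k₁ ∧ P₂.natDegree = k₂ ∧
      P₀.coeff k₀ ≠ 0 ∧ P₁.coeff k₁ ≠ 0 ∧ P₂.coeff k₂ ≠ 0 ∧
      (∀ c, |P₀.coeff c| ≤ 8 ^ (2 * N + k₂) ∧ |P₁.coeff c| ≤ 8 ^ (2 * N + k₂) ∧
        |P₂.coeff c| ≤ 8 ^ (2 * N + k₂)) ∧
      (1 - X) ^ (k₀ + k₁ + k₂ + 2) ∣ P₀ + X ^ N * P₁ + X ^ (2 * N) * P₂ := by
  obtain ⟨n, hn⟩ : ∃ n : ℕ, n = 2 * N + k₂ := ⟨_, rfl⟩
  obtain ⟨f, hf⟩ : ∃ f : ℕ → ℤ, ∀ t, f t = (-1) ^ t * (n.choose t : ℤ) * (c1D (k₀ + 1) N t * c1D (N + k₁ + 1) (2 * N) t) :=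
    ⟨_, fun _ => rfl⟩
  have hne : ∀ t, t ≤ n → (t < k₀ + 1 ∨ N ≤ t) → (t < N + k₁ + 1 ∨ 2 * N ≤ t) → f t ≠ 0 := by
    intro t ht ha hb
    rw [hf]
    have h1 : 0 < n.choose t := Nat.choose_pos ht
    have h2 : ((n.choose t : ℕ) : ℤ) ≠ 0 := by exact_mod_cast h1.ne'
    exact mul_ne_zero (mul_ne_zero (pow_ne_zero _ (by norm_num)) h2)
      (mul_ne_zero (c1D_ne h0 ha) (c1D_ne (by omega) hb))
  have hz1 : ∀ t, k₀ + 1 ≤ t → t < N → f t = 0 := by
    intro t h2 h3
    rw [hf, c1D_zero h2 h3]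
    ring
  have hz2 : ∀ t, N + k₁ + 1 ≤ t → t < 2 * N → f t = 0 := by
    intro t h2 h3
    rw [hf, c1D_zero h2 h3]
    ring
  have hbd : ∀ t, t ≤ n → |f t| ≤ 8 ^ n := by
    intro t ht
    rw [hf, abs_mul, abs_mul, abs_mul, abs_pow, abs_neg, abs_one, one_pow, one_mul]
    have b1 : |((n.choose t : ℕ) : ℤ)| ≤ 2 ^ n := by
      rw [abs_of_nonneg (by positivity)]
      exact_mod_cast Nat.choose_le_two_pow n t
    have b2 : |c1D (k₀ + 1) N t| ≤ 2 ^ n := c1D_le (by omega) ht
    have b3 : |c1D (N + k₁ + 1) (2 * N) t| ≤ 2 ^ n := c1D_le (by omega) ht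
    calc |((n.choose t : ℕ) : ℤ)| * (|c1D (k₀ + 1) N t| * |c1D (N + k₁ + 1) (2 * N) t|) ≤ 2 ^ n * (2 ^ n * 2 ^ n) :=
          mul_le_mul b1 (mul_le_mul b2 b3 (abs_nonneg _) (by positivity)) (by positivity) (by positivity)
      _ = 8 ^ n := by
          rw [← mul_pow, ← mul_pow]
          norm_num
  have hbd' : ∀ (g : ℕ → ℕ) (m j : ℕ), (∀ i < m, g i ≤ n) → |(c1P (fun i => f (g i)) m).coeff j| ≤ 8 ^ n := by
    intro g m j hg
    rw [c1P_coeff]
    split_ifs with h2
    · exact hbd _ (hg j h2)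
    · rw [abs_zero]
      positivity
  have hF : c1P f (n + 1) = c1P (fun i => f i) (k₀ + 1) + X ^ N * c1P (fun i => f (N + i)) (k₁ + 1) +
      X ^ (2 * N) * c1P (fun i => f (2 * N + i)) (k₂ + 1) := by
    ext t
    rw [coeff_add, coeff_add, coeff_X_pow_mul', coeff_X_pow_mul', c1P_coeff, c1P_coeff, c1P_coeff, c1P_coeff]
    by_cases a1 : t < k₀ + 1
    · rw [if_pos (show t < n + 1 by omega), if_pos a1, if_neg (show ¬ N ≤ t by omega), if_neg (show ¬ 2 * N ≤ t by omega)]
      ring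
    · rw [if_neg a1]
      by_cases a2 : t < N
      · rw [if_neg (show ¬ N ≤ t by omega), if_neg (show ¬ 2 * N ≤ t by omega), hz1 t (by omega) a2]
        simp
      · rw [if_pos (show N ≤ t by omega)]
        by_cases a3 : t < N + k₁ + 1
        · rw [if_pos (show t < n + 1 by omega), if_pos (show t - N < k₁ + 1 by omega),
            if_neg (show ¬ 2 * N ≤ t by omega), show N + (t - N) = t by omega]
          ring
        · rw [if_neg (show ¬ t - N < k₁ + 1 by omega)]
          by_cases a4 : t < 2 * N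
          · rw [if_neg (show ¬ 2 * N ≤ t by omega), hz2 t (by omega) a4]
            simp
          · rw [if_pos (show 2 * N ≤ t by omega)]
            by_cases a5 : t < n + 1
            · rw [if_pos a5, if_pos (show t - 2 * N < k₂ + 1 by omega), show 2 * N + (t - 2 * N) = t by omega]
              ring
            · rw [if_neg a5, if_neg (show ¬ t - 2 * N < k₂ + 1 by omega)]
              ring
  refine ⟨c1P (fun i => f i) (k₀ + 1), c1P (fun i => f (N + i)) (k₁ + 1), c1P (fun i => f (2 * N + i)) (k₂ + 1),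
    ?_, ?_, ?_, ?_, ?_, ?_, ?_, ?_⟩
  · exact c1P_deg _ _ (hne _ (by omega) (by omega) (by omega))
  · exact c1P_deg _ _ (hne _ (by omega) (by omega) (by omega))
  · exact c1P_deg _ _ (hne _ (by omega) (by omega) (by omega))
  · rw [c1P_coeff, if_pos (by omega)]
    exact hne _ (by omega) (by omega) (by omega)
  · rw [c1P_coeff, if_pos (by omega)]
    exact hne _ (by omega) (by omega) (by omega)
  · rw [c1P_coeff, if_pos (by omega)]
    exact hne _ (by omega) (by omega) (by omega)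
  · intro c
    rw [← hn]
    exact ⟨hbd' (fun i => i) _ c (fun i hi => by omega), hbd' (fun i => N + i) _ c (fun i hi => by omega),
      hbd' (fun i => 2 * N + i) _ c (fun i hi => by omega)⟩
  · rw [← hF]
    obtain ⟨Z, hZ⟩ : ∃ Z : Finset ℕ, Z = Finset.Ico (k₀ + 1) N ∪ Finset.Ico (N + k₁ + 1) (2 * N) := ⟨_, rfl⟩
    have hdis : Disjoint (Finset.Ico (k₀ + 1) N) (Finset.Ico (N + k₁ + 1) (2 * N)) := by
      rw [Finset.disjoint_left]
      intro x hx hx'
      rw [Finset.mem_Ico] at hx hx'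
      omega
    have hcard : (k₀ + k₁ + k₂ + 2) + Z.card = n := by
      rw [hZ, Finset.card_union_of_disjoint hdis, Nat.card_Ico, Nat.card_Ico]
      omega
    have h1 := c1_dvd n Z (k₀ + k₁ + k₂ + 2) hcard
    obtain ⟨K, hK⟩ : ∃ K : ℤ, K = ((N - (k₀ + 1)).factorial : ℤ) * ((2 * N - (N + k₁ + 1)).factorial : ℤ) := ⟨_, rfl⟩
    have hK0 : K ≠ 0 := by
      rw [hK]
      exact mul_ne_zero (by exact_mod_cast (Nat.factorial_pos _).ne') (by exact_mod_cast (Nat.factorial_pos _).ne')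
    have h2 : c1P (c1f n Z) (n + 1) = C K * c1P f (n + 1) := by
      ext t
      rw [coeff_C_mul, c1P_coeff, c1P_coeff]
      split_ifs with h3
      · unfold c1f
        rw [hZ, Finset.prod_union hdis, c1D_prod h0, c1D_prod (show N + k₁ + 1 ≤ 2 * N by omega), hf, hK]
        ring
      · rw [mul_zero]
    rw [h2] at h1
    exact c1_cancel _ K hK0 _ h1

end ETT
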