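import Pool.Agent.Lib.MP_a7ed83_ag.C.C8
import Pool.Agent.Lib.MP_a7ed83_ag.B.B11

/-! C9 (90 minutes). Skolem-Mahler-Lech for orbits in finitely generated abelian groups.
PROOF. (1) `sep`: `A` modulo torsion is a finitely generated free group; take its coordinates.
(2) For a homomorphism `φ : A →+ ℤ` the sequence
`s l = φ ((α^(a l)) y) - φ (γ ((β^(b l)) y')) - φ w` satisfies a recurrence given by a monic integer
polynomial: `α^a` and `β^b` are integral over `ℤ` (`aeval α p = 0`, `p` monic; `IsIntegral.pow` in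
the ring `AddMonoid.End A`), so let `P₁ (α^a) = 0`, `P₂ (β^b) = 0`, monic; then
`P₁ P₂ (X - 1)` is a recurrence for the three sequences `φ ((α^a)^l y)`, `φ (γ ((β^b)^l y'))`, `φ w`
(applying a polynomial `Q` in the shift operator to `l ↦ φ (T^l y)` gives `l ↦ φ (T^l Q(T) y)`). By
`sml_int` the set of the `l` with `s l = 0` is EP. (3) Intersect over the finitely many `φ` of
`sep` (`EP.biInter`): the set of the `l` for which
`(α^(a l)) y - γ ((β^(b l)) y') - w` is torsion is EP; apply `ep_zero_of_tors`. -/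

open Polynomial

namespace ETT

universe v

theorem sep (A : Type v) [AddCommGroup A] [Module.Finite ℤ A] :
    ∃ s : Finset (A →+ ℤ), ∀ x : A, (∀ φ ∈ s, φ x = 0) → Tors x := by
  classical
  let Q := A ⧸ Submodule.torsion ℤ A
  have hfree : Module.Free ℤ Q := inferInstance
  let bs := Module.Free.chooseBasis ℤ Q
  refine ⟨Finset.univ.image fun i =>
    ((bs.coord i).comp (Submodule.mkQ (Submodule.torsion ℤ A))).toAddMonoidHom, fun x hx => ?_⟩
  have h0 : Submodule.mkQ (Submodule.torsion ℤ A) x = 0 := by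
    refine bs.ext_elem fun i => ?_
    have h1 := hx _ (Finset.mem_image_of_mem _ (Finset.mem_univ i))
    rw [map_zero, Finsupp.zero_apply]
    exact h1
  have h1 : x ∈ Submodule.torsion ℤ A := by
    rw [← Submodule.Quotient.mk_eq_zero]
    exact h0
  rw [Submodule.mem_torsion_iff] at h1
  obtain ⟨a, ha⟩ := h1
  have ha0 : (a : ℤ) ≠ 0 := nonZeroDivisors.coe_ne_zero a
  have ha1 : (a : ℤ) • x = 0 := ha
  refine ⟨(a : ℤ).natAbs, Int.natAbs_pos.2 ha0, ?_⟩
  rcases Int.natAbs_eq (a : ℤ) with h | h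
  · rw [h, natCast_zsmul] at ha1
    exact ha1
  · rw [h, neg_smul, natCast_zsmul, neg_eq_zero] at ha1
    exact ha1

/-- evaluation of endomorphisms at a point -/
private def C9_ev {A : Type v} [AddCommGroup A] (y : A) : AddMonoid.End A →+ A where
  toFun f := f y
  map_zero' := rfl
  map_add' _ _ := rfl

/-- the functional `f ↦ φ (f(T) y) - φ (γ (f(S) y')) - f(1) φ w` -/
private noncomputable def C9_lam {A : Type v} [AddCommGroup A] (T S γ : AddMonoid.End A)
    (y y' w : A) (φ : A →+ ℤ) : ℤ[X] →+ ℤ :=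
  (φ.comp ((C9_ev y).comp (aeval T : ℤ[X] →ₐ[ℤ] AddMonoid.End A).toRingHom.toAddMonoidHom)) -
    (φ.comp (γ.comp ((C9_ev y').comp (aeval S : ℤ[X] →ₐ[ℤ] AddMonoid.End A).toRingHom.toAddMonoidHom))) -
    ((AddMonoidHom.mulRight (φ w)).comp (evalRingHom (1 : ℤ)).toAddMonoidHom)

private theorem C9_lam_apply {A : Type v} [AddCommGroup A] (T S γ : AddMonoid.End A)
    (y y' w : A) (φ : A →+ ℤ) (f : ℤ[X]) :
    C9_lam T S γ y y' w φ f = φ ((aeval T f) y) - φ (γ ((aeval S f) y')) - f.eval 1 * φ w := rfl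

theorem ep_group {A : Type v} [AddCommGroup A] [Module.Finite ℤ A] {α β γ : AddMonoid.End A}
    (p p' : ℤ[X]) (hm : p.Monic) (hm' : p'.Monic) (ha : aeval α p = 0) (ha' : aeval β p' = 0)
    (y y' w : A) (a b : ℕ) :
    EP {l : ℕ | (α ^ (a * l)) y - γ ((β ^ (b * l)) y') = w} := by
  refine ep_zero_of_tors p p' hm hm' ha ha' y y' w a b ?_
  have i1 : IsIntegral ℤ α := ⟨p, hm, ha⟩
  have i2 : IsIntegral ℤ β := ⟨p', hm', ha'⟩
  obtain ⟨P₁, hP₁, e₁⟩ := i1.pow a
  obtain ⟨P₂, hP₂, e₂⟩ := i2.pow b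
  have e₁' : aeval (α ^ a) P₁ = 0 := e₁
  have e₂' : aeval (β ^ b) P₂ = 0 := e₂
  obtain ⟨s, hs⟩ := sep A
  have key : ∀ φ : A →+ ℤ, EP {l : ℕ | φ ((α ^ (a * l)) y - γ ((β ^ (b * l)) y') - w) = 0} := by
    intro φ
    have hQ : (P₁ * P₂ * (X - C 1)).Monic := (hP₁.mul hP₂).mul (monic_X_sub_C 1)
    have hval : ∀ l : ℕ, C9_lam (α ^ a) (β ^ b) γ y y' w φ (X ^ l) =
        φ ((α ^ (a * l)) y - γ ((β ^ (b * l)) y') - w) := by
      intro l
      rw [C9_lam_apply, map_pow, map_pow, aeval_X, aeval_X, ← pow_mul, ← pow_mul, eval_pow, eval_X,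
        one_pow, one_mul, map_sub, map_sub]
    have hz : ∀ f : ℤ[X], C9_lam (α ^ a) (β ^ b) γ y y' w φ (P₁ * P₂ * (X - C 1) * f) = 0 := by
      intro f
      rw [C9_lam_apply]
      have z1 : aeval (α ^ a) (P₁ * P₂ * (X - C 1) * f) = 0 := by
        rw [mul_assoc, mul_assoc, map_mul, e₁', zero_mul]
      have z2 : aeval (β ^ b) (P₁ * P₂ * (X - C 1) * f) = 0 := by
        rw [mul_comm P₁ P₂, mul_assoc, mul_assoc, map_mul, e₂', zero_mul]
      have z3 : (P₁ * P₂ * (X - C 1) * f).eval 1 = 0 := by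
        rw [eval_mul, eval_mul, eval_sub, eval_X, eval_C, sub_self, mul_zero, zero_mul]
      have z4 : (0 : AddMonoid.End A) y = 0 := rfl
      have z5 : (0 : AddMonoid.End A) y' = 0 := rfl
      rw [z1, z2, z3, zero_mul, z4, z5, map_zero, map_zero, map_zero, sub_zero, sub_zero]
    refine sml_int (P₁ * P₂ * (X - C 1)) hQ _ fun n => ?_
    have h1 := hz (X ^ n)
    have h2 : P₁ * P₂ * (X - C 1) * X ^ n =
        ∑ j ∈ Finset.range ((P₁ * P₂ * (X - C 1)).natDegree + 1),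
          (P₁ * P₂ * (X - C 1)).coeff j • (X ^ (n + j) : ℤ[X]) := by
      have h3 := (P₁ * P₂ * (X - C 1)).as_sum_range_C_mul_X_pow
      conv_lhs => rw [h3]
      rw [Finset.sum_mul]
      refine Finset.sum_congr rfl fun j _ => ?_
      rw [mul_assoc, ← pow_add, add_comm j n, ← smul_eq_C_mul]
    rw [h2, map_sum] at h1
    rw [← h1]
    refine Finset.sum_congr rfl fun j _ => ?_
    rw [map_zsmul, hval, smul_eq_mul]
  have hset : {l : ℕ | Tors ((α ^ (a * l)) y - γ ((β ^ (b * l)) y') - w)} =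
      {l : ℕ | ∀ φ ∈ s, l ∈ {l : ℕ | φ ((α ^ (a * l)) y - γ ((β ^ (b * l)) y') - w) = 0}} := by
    ext l
    constructor
    · rintro ⟨k, hk, e⟩ φ _
      have h1 := congrArg φ e
      rw [map_nsmul, map_zero, nsmul_eq_mul] at h1
      have h2 : (k : ℤ) ≠ 0 := Nat.cast_ne_zero.2 hk.ne'
      exact (mul_eq_zero.1 h1).resolve_left h2
    · intro h
      exact hs _ h
  rw [hset]
  exact EP.biInter s _ fun φ _ => key φ

end ETT
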