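import Pool.Agent.Lib.MP_a7ed83_ag.C.C6
import Pool.Agent.Lib.MP_a7ed83_ag.C.C9

/-! C10 (90 minutes). The solution sets for general linear parts.
PROOF. Let `z = (k m + r, k n + s)`, `0 ≤ r, s < k`. `x = (α^(km)) u_r`, `u_r = (α^r) u`,
`y = γ ((β^(kn)) v_s)`, `v_s = (β^s) v`, `x - y = w`. With `Q x = B x x`: `Q x = a^m Q u_r`,
`Q y = b^n Q v_s`, `Q u_r, Q v_s > 0` (`u_r` is not torsion: hypothesis `hu'`). `Q x - Q y =
2 B y w + Q w`, and `(B y w)^2 ≤ Q y * Q w` (Cauchy-Schwarz: `0 ≤ Q (i y + j w)` for all integers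
`i, j`; `Q ≥ 0` everywhere because `Q` of a torsion element is 0), so
`|a^m Q u_r - b^n Q v_s| ≤ C sqrt(b^n)`. By `off_line_finite` (`a, b ≥ 2`), only finitely many
`(m, n)` have `a^m Q u_r ≠ b^n Q v_s`. The pairs with equality form a line
`(m₀ + c l, n₀ + d l)` or there are none (`line` in A9 for real numbers), and the `l` for which
`(k (m₀ + c l) + r, k (n₀ + d l) + s)` is a solution form an EP set by `ep_group`
(`(α^(k(m₀+cl)+r)) u = (α^(k c l)) ((α^(k m₀ + r)) u)`). So every class is `FinLin`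
(`FinLin.of_finite`, `FinLin.of_EP`, `FinLin.union`), and there are finitely many classes.
`finite_ind`: if `a`, `b` are multiplicatively independent the line is one point at most. -/

open Polynomial

namespace ETT

universe v

/-- A rational symmetric bilinear form, positive definite modulo torsion, for which the `k`-th
powers of `α`, `β` are similitudes with factors `a`, `b` and `γ` is an isometry. -/
structure RF {A : Type v} [AddCommGroup A] (B : A →+ A →+ ℚ) (α β : AddMonoid.End A)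
    (k a b : ℕ) : Prop where
  hk : 0 < k
  ha : 2 ≤ a
  hb : 2 ≤ b
  symm : ∀ x y, B x y = B y x
  pos : ∀ x, ¬ Tors x → 0 < B x x
  simα : ∀ x, B ((α ^ k) x) ((α ^ k) x) = a * B x x
  simβ : ∀ x, B ((β ^ k) x) ((β ^ k) x) = b * B x x

private theorem c10_add {A : Type v} [AddCommGroup A] (α : AddMonoid.End A) (i j : ℕ) (x : A) :
    (α ^ (i + j)) x = (α ^ i) ((α ^ j) x) := by
  rw [pow_add]
  rfl

private theorem c10_tors {A : Type v} [AddCommGroup A] (B : A →+ A →+ ℚ) (x : A) (hx : Tors x) : B x x = 0 := by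
  obtain ⟨j, hj, hx⟩ := hx
  have h1 : B (j • x) x = 0 := by
    rw [hx, map_zero]
    rfl
  rw [map_nsmul] at h1
  have h2 : (j : ℚ) * B x x = 0 := by
    rw [← nsmul_eq_mul]
    exact h1
  rcases mul_eq_zero.1 h2 with h3 | h3
  · exact absurd (Nat.cast_eq_zero.1 h3) (by omega)
  · exact h3

private theorem c10_quad {A : Type v} [AddCommGroup A] (B : A →+ A →+ ℚ) (symm : ∀ x y, B x y = B y x) (x y : A) (i j : ℤ) :
    B (i • x + j • y) (i • x + j • y) = (i : ℚ) ^ 2 * B x x + 2 * i * j * B x y + (j : ℚ) ^ 2 * B y y := by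
  have h1 : ∀ (i : ℤ) (x y : A), B (i • x) y = i * B x y := by
    intro i x y
    rw [map_zsmul, ← zsmul_eq_mul]
    rfl
  have h2 : ∀ (i : ℤ) (x y : A), B y (i • x) = i * B y x := by
    intro i x y
    rw [map_zsmul, ← zsmul_eq_mul]
  have h3 : ∀ x y z : A, B (x + y) z = B x z + B y z := by
    intro x y z
    rw [map_add]
    rfl
  rw [h3, map_add, map_add, h1, h1, h1, h1, h2, h2, h2, h2, symm y x]
  ring

private theorem c10_cs {A : Type v} [AddCommGroup A] (B : A →+ A →+ ℚ) (symm : ∀ x y, B x y = B y x)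
    (nn : ∀ x, 0 ≤ B x x) (x y : A) : (B x y) ^ 2 ≤ B x x * B y y := by
  have h : ∀ t : ℚ, 0 ≤ B y y * (t * t) + (2 * B x y) * t + B x x := by
    intro t
    have h1 := nn ((t.den : ℤ) • x + t.num • y)
    rw [c10_quad B symm] at h1
    have hd : (0 : ℚ) < ((t.den : ℤ) : ℚ) := by
      have := t.den_pos
      exact_mod_cast this
    have ht : (t.num : ℚ) = t * ((t.den : ℤ) : ℚ) := by
      rw [Int.cast_natCast]
      exact (Rat.mul_den_eq_num t).symm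
    rw [ht] at h1
    have h2 : (((t.den : ℤ) : ℚ)) ^ 2 * B x x + 2 * ((t.den : ℤ) : ℚ) * (t * ((t.den : ℤ) : ℚ)) * B x y +
        (t * ((t.den : ℤ) : ℚ)) ^ 2 * B y y = (((t.den : ℤ) : ℚ)) ^ 2 * (B y y * (t * t) + (2 * B x y) * t + B x x) := by
      ring
    rw [h2] at h1
    exact nonneg_of_mul_nonneg_right h1 (by positivity)
  have h4 := discrim_le_zero h
  unfold discrim at h4
  nlinarith

/-- non-negativity of the form -/
private theorem c10_nn {A : Type v} [AddCommGroup A] {B : A →+ A →+ ℚ} {α β : AddMonoid.End A} {k a b : ℕ} (H : RF B α β k a b)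
    (x : A) : 0 ≤ B x x := by
  by_cases hx : Tors x
  · rw [c10_tors B x hx]
  · exact (H.pos x hx).le

private theorem c10_pow {A : Type v} [AddCommGroup A] (B : A →+ A →+ ℚ) (α : AddMonoid.End A) (k a : ℕ)
    (h : ∀ x, B ((α ^ k) x) ((α ^ k) x) = a * B x x) (m : ℕ) (x : A) :
    B ((α ^ (k * m)) x) ((α ^ (k * m)) x) = (a : ℚ) ^ m * B x x := by
  induction m with
  | zero =>
    rw [mul_zero, pow_zero, pow_zero, one_mul]
    rfl
  | succ m ih =>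
    have e : k * (m + 1) = k + k * m := by ring
    rw [e, c10_add, h, ih, pow_succ]
    ring

/-- the key inequality -/
private theorem c10_key {A : Type v} [AddCommGroup A] {B : A →+ A →+ ℚ}
    {α β γ : AddMonoid.End A} {k a b : ℕ} (H : RF B α β k a b)
    (hγ : ∀ x, B (γ x) (γ x) = B x x) (u v w : A) (m n : ℕ)
    (h : (α ^ (k * m)) u - γ ((β ^ (k * n)) v) = w) :
    |((B u u : ℚ) : ℝ) * (a : ℝ) ^ m - ((B v v : ℚ) : ℝ) * (b : ℝ) ^ n| ≤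
      (2 * Real.sqrt (((B v v : ℚ) : ℝ) * ((B w w : ℚ) : ℝ)) + ((B w w : ℚ) : ℝ)) * Real.sqrt ((b : ℝ) ^ n) := by
  have hx := c10_pow B α k a H.simα m u
  have hy := c10_pow B β k b H.simβ n v
  rw [← hγ] at hy
  obtain ⟨x, hxe⟩ : ∃ x, (α ^ (k * m)) u = x := ⟨_, rfl⟩
  obtain ⟨y, hye⟩ : ∃ y, γ ((β ^ (k * n)) v) = y := ⟨_, rfl⟩
  rw [hxe] at hx
  rw [hye] at hy
  rw [hxe, hye] at h
  have h1 : x = (1 : ℤ) • y + (1 : ℤ) • w := by
    rw [one_smul, one_smul, ← h]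
    abel
  have h2 : B x x = B y y + 2 * B y w + B w w := by
    rw [h1, c10_quad B H.symm]
    push_cast
    ring
  have h3 := c10_cs B H.symm (c10_nn H) y w
  have hb1 : (1 : ℝ) ≤ (b : ℝ) := by
    have := H.hb
    exact_mod_cast (by omega : 1 ≤ b)
  have hbn : (1 : ℝ) ≤ (b : ℝ) ^ n := one_le_pow₀ hb1
  have hs1 : 1 ≤ Real.sqrt ((b : ℝ) ^ n) := Real.one_le_sqrt.2 hbn
  have hW : (0 : ℝ) ≤ ((B w w : ℚ) : ℝ) := by exact_mod_cast c10_nn H w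
  have hV : (0 : ℝ) ≤ ((B v v : ℚ) : ℝ) := by exact_mod_cast c10_nn H v
  have h4 : |((B y w : ℚ) : ℝ)| ≤ Real.sqrt (((B v v : ℚ) : ℝ) * ((B w w : ℚ) : ℝ)) * Real.sqrt ((b : ℝ) ^ n) := by
    rw [← Real.sqrt_mul (mul_nonneg hV hW)]
    apply Real.abs_le_sqrt
    have h5 : ((B y w : ℚ) : ℝ) ^ 2 ≤ ((B y y : ℚ) : ℝ) * ((B w w : ℚ) : ℝ) := by exact_mod_cast h3
    have h6 : ((B y y : ℚ) : ℝ) = (b : ℝ) ^ n * ((B v v : ℚ) : ℝ) := by
      rw [hy]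
      push_cast
      ring
    rw [h6] at h5
    linarith
  have h7 : ((B u u : ℚ) : ℝ) * (a : ℝ) ^ m - ((B v v : ℚ) : ℝ) * (b : ℝ) ^ n = 2 * ((B y w : ℚ) : ℝ) + ((B w w : ℚ) : ℝ) := by
    have h8 : ((B x x : ℚ) : ℝ) = (a : ℝ) ^ m * ((B u u : ℚ) : ℝ) := by
      rw [hx]
      push_cast
      ring
    have h9 : ((B y y : ℚ) : ℝ) = (b : ℝ) ^ n * ((B v v : ℚ) : ℝ) := by
      rw [hy]
      push_cast
      ring
    have h10 : ((B x x : ℚ) : ℝ) = ((B y y : ℚ) : ℝ) + 2 * ((B y w : ℚ) : ℝ) + ((B w w : ℚ) : ℝ) := by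
      rw [h2]
      push_cast
      ring
    linarith
  rw [h7]
  have h11 := abs_le.1 h4
  rw [abs_le]
  have h12 : ((B w w : ℚ) : ℝ) ≤ ((B w w : ℚ) : ℝ) * Real.sqrt ((b : ℝ) ^ n) := le_mul_of_one_le_right hW hs1
  constructor
  · nlinarith [h11.1]
  · nlinarith [h11.2]

/-- the solutions in a class off the line -/
private theorem c10_off {A : Type v} [AddCommGroup A] {B : A →+ A →+ ℚ}
    {α β γ : AddMonoid.End A} {k a b : ℕ} (H : RF B α β k a b)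
    (hγ : ∀ x, B (γ x) (γ x) = B x x) (u v w : A)
    (hu : ∀ r, ¬ Tors ((α ^ r) u)) (hv : ∀ s, ¬ Tors ((β ^ s) v)) (r s : ℕ) :
    {z : ℕ × ℕ | (α ^ (k * z.1 + r)) u - γ ((β ^ (k * z.2 + s)) v) = w ∧
      (a : ℝ) ^ z.1 * ((B ((α ^ r) u) ((α ^ r) u) : ℚ) : ℝ) ≠ (b : ℝ) ^ z.2 * ((B ((β ^ s) v) ((β ^ s) v) : ℚ) : ℝ)}.Finite := by
  refine (off_line_finite a b (B ((α ^ r) u) ((α ^ r) u)) (B ((β ^ s) v) ((β ^ s) v)) H.ha H.hb (H.pos _ (hu r)) (H.pos _ (hv s))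
    (2 * Real.sqrt (((B ((β ^ s) v) ((β ^ s) v) : ℚ) : ℝ) * ((B w w : ℚ) : ℝ)) + ((B w w : ℚ) : ℝ))).subset ?_
  rintro ⟨m, n⟩ ⟨h1, h2⟩
  simp only at h1 h2
  rw [c10_add, c10_add] at h1
  refine ⟨c10_key H hγ _ _ w m n h1, ?_⟩
  intro h3
  apply h2
  simp only at h3
  have h4 : ((B ((α ^ r) u) ((α ^ r) u) : ℚ) : ℝ) * (a : ℝ) ^ m = ((B ((β ^ s) v) ((β ^ s) v) : ℚ) : ℝ) * (b : ℝ) ^ n := by
    exact_mod_cast h3
  linarith

/-- the solutions in a class on the line -/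
private theorem c10_on {A : Type v} [AddCommGroup A] {B : A →+ A →+ ℚ}
    {α β : AddMonoid.End A} {k a b : ℕ} (H : RF B α β k a b) (u v : A)
    (hu : ∀ r, ¬ Tors ((α ^ r) u)) (hv : ∀ s, ¬ Tors ((β ^ s) v)) (r s : ℕ)
    (hne : ∃ m n : ℕ, (a : ℝ) ^ m * ((B ((α ^ r) u) ((α ^ r) u) : ℚ) : ℝ) = (b : ℝ) ^ n * ((B ((β ^ s) v) ((β ^ s) v) : ℚ) : ℝ)) :
    ∃ m₀ a' n₀ b' : ℕ, (∀ m n : ℕ, (a : ℝ) ^ m * ((B ((α ^ r) u) ((α ^ r) u) : ℚ) : ℝ) =
      (b : ℝ) ^ n * ((B ((β ^ s) v) ((β ^ s) v) : ℚ) : ℝ) ↔ ∃ l, m = m₀ + a' * l ∧ n = n₀ + b' * l) ∧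
      (a' ≠ 0 → (a : ℝ) ^ a' = (b : ℝ) ^ b') ∧ (a' = 0 ↔ b' = 0) := by
  refine line (a : ℝ) (b : ℝ) _ _ ?_ ?_ ?_ ?_ hne
  · have := H.ha
    exact_mod_cast (by omega : 1 < a)
  · have := H.hb
    exact_mod_cast (by omega : 1 < b)
  · exact_mod_cast H.pos _ (hu r)
  · exact_mod_cast H.pos _ (hv s)

private theorem c10_biUnion {ι : Type*} (t : Finset ι) (f : ι → Set (ℕ × ℕ)) (h : ∀ i ∈ t, FinLin (f i)) :
    FinLin {z | ∃ i ∈ t, z ∈ f i} := by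
  classical
  induction t using Finset.induction_on with
  | empty =>
    have h1 : {z : ℕ × ℕ | ∃ i ∈ (∅ : Finset ι), z ∈ f i} = ∅ := by
      ext z
      simp
    rw [h1]
    exact FinLin.of_finite Set.finite_empty
  | insert i t hi ih =>
    have h1 : {z : ℕ × ℕ | ∃ j ∈ insert i t, z ∈ f j} = f i ∪ {z | ∃ j ∈ t, z ∈ f j} := by
      ext z
      simp
    rw [h1]
    exact FinLin.union (h i (Finset.mem_insert_self _ _)) (ih fun j hj => h j (Finset.mem_insert_of_mem hj))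

/-- decomposition into classes -/
private theorem c10_classes {A : Type v} [AddCommGroup A] {α β γ : AddMonoid.End A} {k : ℕ} (hk : 0 < k) (u v w : A) :
    {z : ℕ × ℕ | (α ^ z.1) u - γ ((β ^ z.2) v) = w} = {z : ℕ × ℕ | ∃ c ∈ Finset.range k ×ˢ Finset.range k,
      z ∈ (fun z : ℕ × ℕ => (k * z.1 + c.1, k * z.2 + c.2)) ''
        {z : ℕ × ℕ | (α ^ (k * z.1 + c.1)) u - γ ((β ^ (k * z.2 + c.2)) v) = w}} := by
  ext z
  constructor
  · intro hz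
    refine ⟨(z.1 % k, z.2 % k), ?_, (z.1 / k, z.2 / k), ?_, ?_⟩
    · rw [Finset.mem_product, Finset.mem_range, Finset.mem_range]
      exact ⟨Nat.mod_lt _ hk, Nat.mod_lt _ hk⟩
    · show (α ^ (k * (z.1 / k) + z.1 % k)) u - γ ((β ^ (k * (z.2 / k) + z.2 % k)) v) = w
      rw [Nat.div_add_mod, Nat.div_add_mod]
      exact hz
    · simp only
      rw [Nat.div_add_mod, Nat.div_add_mod]
  · rintro ⟨c, _, x, hx, rfl⟩
    exact hx

theorem finlin_E {A : Type v} [AddCommGroup A] [Module.Finite ℤ A] {B : A →+ A →+ ℚ}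
    {α β γ : AddMonoid.End A} {k a b : ℕ} (H : RF B α β k a b)
    (hγ : ∀ x, B (γ x) (γ x) = B x x) (p p' : ℤ[X]) (hm : p.Monic) (hm' : p'.Monic)
    (ha : aeval α p = 0) (ha' : aeval β p' = 0) (u v w : A)
    (hu : ∀ r, ¬ Tors ((α ^ r) u)) (hv : ∀ s, ¬ Tors ((β ^ s) v)) :
    FinLin {z : ℕ × ℕ | (α ^ z.1) u - γ ((β ^ z.2) v) = w} := by
  rw [c10_classes (γ := γ) H.hk u v w]
  refine c10_biUnion _ _ ?_
  rintro ⟨r, s⟩ _
  simp only
  have hoff := c10_off H hγ u v w hu hv r s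
  have hsplit : (fun z : ℕ × ℕ => (k * z.1 + r, k * z.2 + s)) ''
      {z : ℕ × ℕ | (α ^ (k * z.1 + r)) u - γ ((β ^ (k * z.2 + s)) v) = w} =
      (fun z : ℕ × ℕ => (k * z.1 + r, k * z.2 + s)) '' {z : ℕ × ℕ | (α ^ (k * z.1 + r)) u - γ ((β ^ (k * z.2 + s)) v) = w ∧
      (a : ℝ) ^ z.1 * ((B ((α ^ r) u) ((α ^ r) u) : ℚ) : ℝ) ≠ (b : ℝ) ^ z.2 * ((B ((β ^ s) v) ((β ^ s) v) : ℚ) : ℝ)} ∪
      (fun z : ℕ × ℕ => (k * z.1 + r, k * z.2 + s)) '' {z : ℕ × ℕ | (α ^ (k * z.1 + r)) u - γ ((β ^ (k * z.2 + s)) v) = w ∧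
      (a : ℝ) ^ z.1 * ((B ((α ^ r) u) ((α ^ r) u) : ℚ) : ℝ) = (b : ℝ) ^ z.2 * ((B ((β ^ s) v) ((β ^ s) v) : ℚ) : ℝ)} := by
    rw [← Set.image_union]
    congr 1
    ext z
    constructor
    · intro hz
      by_cases h1 : (a : ℝ) ^ z.1 * ((B ((α ^ r) u) ((α ^ r) u) : ℚ) : ℝ) = (b : ℝ) ^ z.2 * ((B ((β ^ s) v) ((β ^ s) v) : ℚ) : ℝ)
      · exact Or.inr ⟨hz, h1⟩
      · exact Or.inl ⟨hz, h1⟩
    · rintro (hz | hz)
      · exact hz.1
      · exact hz.1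
  rw [hsplit]
  refine FinLin.union (FinLin.of_finite (hoff.image _)) ?_
  by_cases hne : ∃ m n : ℕ, (a : ℝ) ^ m * ((B ((α ^ r) u) ((α ^ r) u) : ℚ) : ℝ) = (b : ℝ) ^ n * ((B ((β ^ s) v) ((β ^ s) v) : ℚ) : ℝ)
  · obtain ⟨m₀, a', n₀, b', h1, -, -⟩ := c10_on H u v hu hv r s hne
    have hep := ep_group (γ := γ) p p' hm hm' ha ha' ((α ^ (k * m₀ + r)) u) ((β ^ (k * n₀ + s)) v) w (k * a') (k * b')
    have h2 := FinLin.of_EP hep (k * m₀ + r) (k * a') (k * n₀ + s) (k * b')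
    have h3 : (fun z : ℕ × ℕ => (k * z.1 + r, k * z.2 + s)) '' {z : ℕ × ℕ | (α ^ (k * z.1 + r)) u - γ ((β ^ (k * z.2 + s)) v) = w ∧
      (a : ℝ) ^ z.1 * ((B ((α ^ r) u) ((α ^ r) u) : ℚ) : ℝ) = (b : ℝ) ^ z.2 * ((B ((β ^ s) v) ((β ^ s) v) : ℚ) : ℝ)} =
      {x | ∃ l ∈ {l : ℕ | (α ^ (k * a' * l)) ((α ^ (k * m₀ + r)) u) - γ ((β ^ (k * b' * l)) ((β ^ (k * n₀ + s)) v)) = w},
        x = (k * m₀ + r + k * a' * l, k * n₀ + s + k * b' * l)} := by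
      have e1 : ∀ l, k * (m₀ + a' * l) + r = k * a' * l + (k * m₀ + r) := fun l => by ring
      have e2 : ∀ l, k * (n₀ + b' * l) + s = k * b' * l + (k * n₀ + s) := fun l => by ring
      ext x
      constructor
      · rintro ⟨⟨m, n⟩, ⟨hz1, hz2⟩, rfl⟩
        obtain ⟨l, hl1, hl2⟩ := (h1 m n).1 hz2
        simp only at hz1
        rw [hl1, hl2, e1, e2, c10_add, c10_add β] at hz1
        refine ⟨l, hz1, ?_⟩
        simp only
        rw [hl1, hl2, e1, e2, add_comm (k * a' * l), add_comm (k * b' * l)]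
      · rintro ⟨l, hl, rfl⟩
        refine ⟨(m₀ + a' * l, n₀ + b' * l), ⟨?_, (h1 _ _).2 ⟨l, rfl, rfl⟩⟩, ?_⟩
        · show (α ^ (k * (m₀ + a' * l) + r)) u - γ ((β ^ (k * (n₀ + b' * l) + s)) v) = w
          rw [e1, e2, c10_add, c10_add β]
          exact hl
        · simp only
          rw [e1, e2, add_comm (k * a' * l), add_comm (k * b' * l)]
    rw [h3]
    exact h2
  · have h3 : (fun z : ℕ × ℕ => (k * z.1 + r, k * z.2 + s)) '' {z : ℕ × ℕ | (α ^ (k * z.1 + r)) u - γ ((β ^ (k * z.2 + s)) v) = w ∧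
      (a : ℝ) ^ z.1 * ((B ((α ^ r) u) ((α ^ r) u) : ℚ) : ℝ) = (b : ℝ) ^ z.2 * ((B ((β ^ s) v) ((β ^ s) v) : ℚ) : ℝ)} = ∅ := by
      rw [Set.image_eq_empty, Set.eq_empty_iff_forall_notMem]
      rintro z ⟨_, h4⟩
      exact hne ⟨_, _, h4⟩
    rw [h3]
    exact FinLin.of_finite Set.finite_empty

theorem finite_E {A : Type v} [AddCommGroup A] [Module.Finite ℤ A] {B : A →+ A →+ ℚ}
    {α β γ : AddMonoid.End A} {k a b : ℕ} (H : RF B α β k a b)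
    (hγ : ∀ x, B (γ x) (γ x) = B x x) (hind : ∀ m n : ℕ, 0 < m → a ^ m ≠ b ^ n) (u v w : A)
    (hu : ∀ r, ¬ Tors ((α ^ r) u)) (hv : ∀ s, ¬ Tors ((β ^ s) v)) :
    {z : ℕ × ℕ | (α ^ z.1) u - γ ((β ^ z.2) v) = w}.Finite := by
  rw [c10_classes (γ := γ) H.hk u v w]
  have h0 : {z : ℕ × ℕ | ∃ c ∈ Finset.range k ×ˢ Finset.range k,
      z ∈ (fun z : ℕ × ℕ => (k * z.1 + c.1, k * z.2 + c.2)) ''
        {z : ℕ × ℕ | (α ^ (k * z.1 + c.1)) u - γ ((β ^ (k * z.2 + c.2)) v) = w}} =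
      ⋃ c ∈ Finset.range k ×ˢ Finset.range k, (fun z : ℕ × ℕ => (k * z.1 + c.1, k * z.2 + c.2)) ''
        {z : ℕ × ℕ | (α ^ (k * z.1 + c.1)) u - γ ((β ^ (k * z.2 + c.2)) v) = w} := by
    ext z
    rw [Set.mem_iUnion₂]
    constructor
    · rintro ⟨c, hc, hz⟩
      exact ⟨c, hc, hz⟩
    · rintro ⟨c, hc, hz⟩
      exact ⟨c, hc, hz⟩
  rw [h0]
  refine Set.Finite.biUnion (Finset.finite_toSet _) ?_
  rintro ⟨r, s⟩ _
  refine Set.Finite.image _ ?_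
  simp only
  have hoff := c10_off H hγ u v w hu hv r s
  have hon : {z : ℕ × ℕ | (a : ℝ) ^ z.1 * ((B ((α ^ r) u) ((α ^ r) u) : ℚ) : ℝ) = (b : ℝ) ^ z.2 * ((B ((β ^ s) v) ((β ^ s) v) : ℚ) : ℝ)}.Finite := by
    by_cases hne : ∃ m n : ℕ, (a : ℝ) ^ m * ((B ((α ^ r) u) ((α ^ r) u) : ℚ) : ℝ) = (b : ℝ) ^ n * ((B ((β ^ s) v) ((β ^ s) v) : ℚ) : ℝ)
    · obtain ⟨m₀, a', n₀, b', h1, h2, h3⟩ := c10_on H u v hu hv r s hne
      have ha0 : a' = 0 := by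
        by_contra h4
        refine hind a' b' (Nat.pos_of_ne_zero h4) ?_
        exact_mod_cast h2 h4
      have hb0 : b' = 0 := h3.1 ha0
      refine (Set.finite_singleton ((m₀, n₀) : ℕ × ℕ)).subset ?_
      rintro ⟨m, n⟩ hz
      obtain ⟨l, hl1, hl2⟩ := (h1 m n).1 hz
      rw [ha0, zero_mul, add_zero] at hl1
      rw [hb0, zero_mul, add_zero] at hl2
      rw [hl1, hl2]
      rfl
    · have h3 : {z : ℕ × ℕ | (a : ℝ) ^ z.1 * ((B ((α ^ r) u) ((α ^ r) u) : ℚ) : ℝ) = (b : ℝ) ^ z.2 * ((B ((β ^ s) v) ((β ^ s) v) : ℚ) : ℝ)} = ∅ := by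
        rw [Set.eq_empty_iff_forall_notMem]
        intro z h4
        exact hne ⟨_, _, h4⟩
      rw [h3]
      exact Set.finite_empty
  refine (hoff.union hon).subset ?_
  intro z hz
  by_cases h1 : (a : ℝ) ^ z.1 * ((B ((α ^ r) u) ((α ^ r) u) : ℚ) : ℝ) = (b : ℝ) ^ z.2 * ((B ((β ^ s) v) ((β ^ s) v) : ℚ) : ℝ)
  · exact Or.inr h1
  · exact Or.inl ⟨hz, h1⟩

end ETT
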