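import Pool.Agent.Lib.MP_a7ed83_ag.Defs

/-! C11 (helper21, after helper63's A11). If the orbit of `F u` is infinite then `u` is not torsion;
only the monic polynomial is needed. -/

open Polynomial

namespace ETT

universe u v

private theorem C11_pow {A : Type v} [AddCommGroup A] (α : AddMonoid.End A) (p : ℤ[X]) (hm : p.Monic)
    (ha : aeval α p = 0) (u : A) (n : ℕ) :
    (α ^ n) u = ∑ i ∈ Finset.range (p.natDegree + 1), (X ^ n %ₘ p : ℤ[X]).coeff i • (α ^ i) u := by
  have h1 : α ^ n = aeval α (X ^ n %ₘ p : ℤ[X]) := by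
    conv_lhs => rw [← aeval_X_pow (R := ℤ) α, ← modByMonic_add_div (X ^ n : ℤ[X]) p]
    rw [map_add, map_mul, ha, zero_mul, add_zero]
  have h2 : (X ^ n %ₘ p : ℤ[X]).natDegree < p.natDegree + 1 := by
    have := natDegree_modByMonic_le (X ^ n : ℤ[X]) hm
    omega
  conv_lhs => rw [h1, aeval_eq_sum_range' h2]
  exact map_sum (AddMonoidHom.eval u) _ _

private theorem C11_mod {A : Type v} [AddCommGroup A] {v : A} {k : ℕ} (hk : 0 < k) (hv : k • v = 0) (z : ℤ) :
    z • v = (z % k).toNat • v := by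
  have h1 : z % k + k * (z / k) = z := Int.emod_add_mul_ediv z k
  have h2 : 0 ≤ z % k := Int.emod_nonneg z (by exact_mod_cast hk.ne')
  conv_lhs => rw [← h1]
  rw [add_smul, mul_comm (k : ℤ) (z / k), mul_smul, natCast_zsmul, hv, smul_zero, add_zero]
  conv_lhs => rw [← Int.toNat_of_nonneg h2]
  rw [natCast_zsmul]

theorem not_tors_of_infinite' {A : Type v} [AddCommGroup A] {α : AddMonoid.End A}
    (p : ℤ[X]) (hm : p.Monic) (ha : aeval α p = 0) {X : Type u} (f : X → X) (F : A → X)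
    (hf : ∀ x, f (F x) = F (α x)) (u : A) (hP : (Set.range fun n : ℕ => f^[n] (F u)).Infinite) :
    ¬ Tors u := by
  rintro ⟨k, hk, hku⟩
  refine hP ?_
  have h1 : ∀ n : ℕ, f^[n] (F u) = F ((α ^ n) u) := by
    intro n
    induction n with
    | zero => rfl
    | succ n ih =>
      rw [Function.iterate_succ_apply', ih, hf, pow_succ']
      rfl
  have h2 : (Set.range fun c : Fin (p.natDegree + 1) → Fin k => ∑ i, (c i : ℕ) • (α ^ (i : ℕ)) u).Finite :=
    Set.finite_range _
  refine (h2.image F).subset ?_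
  rintro _ ⟨n, rfl⟩
  refine ⟨(α ^ n) u, ⟨fun i => ⟨(((Polynomial.X : ℤ[X]) ^ n %ₘ p).coeff i % k).toNat, ?_⟩, ?_⟩, (h1 n).symm⟩
  · have h3 : ((Polynomial.X : ℤ[X]) ^ n %ₘ p).coeff i % k < k := Int.emod_lt_of_pos _ (by exact_mod_cast hk)
    have h4 : 0 ≤ ((Polynomial.X : ℤ[X]) ^ n %ₘ p).coeff i % k := Int.emod_nonneg _ (by exact_mod_cast hk.ne')
    omega
  · dsimp only
    rw [C11_pow α p hm ha u n, Finset.sum_range]
    refine Finset.sum_congr rfl fun i _ => ?_
    refine (C11_mod hk ?_ _).symm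
    rw [← map_nsmul, hku, map_zero]

end ETT
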