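import Pool.Agent.Lib.MP_a7ed83_ag.C.C1

/-! C2 (70 minutes). Three approximants with nonvanishing determinant.
PROOF. Let `P i` be the approximant with degrees `k` except degree `k+1` in place `i`
(`i = 0, 1, 2`), all divisible by `(1-X)^(3k+3)`. Let `Δ = det (P i j)`. Replacing the column
`j = 0` by `∑_j X^(jN) P i j` (elementary column operations) shows `(1-X)^(3k+3) ∣ Δ`. The term of
the identity permutation has degree exactly `3k+3` (product of the leading coefficients, nonzero),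
all other terms have degree at most `3k+1`. So `Δ = c (1-X)^(3k+3)` with `c ≠ 0` (compare
degrees), and `Δ(x) ≠ 0` for `x ≠ 1`. So the matrix `P i j (x)` is invertible
(`Matrix.exists_mulVec_eq_zero_iff` or `Matrix.det_fin_three`). The coefficients are bounded by
`8^(2N+k+1)`. -/

open Polynomial

namespace ETT

private theorem c2_mul3_le {a b c : ℤ[X]} {i j l m : ℕ} (ha : a.natDegree ≤ i) (hb : b.natDegree ≤ j)
    (hc : c.natDegree ≤ l) (h : i + j + l ≤ m) : (a * b * c).natDegree ≤ m := by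
  have h1 : (a * b).natDegree ≤ i + j := natDegree_mul_le.trans (add_le_add ha hb)
  have h2 : (a * b * c).natDegree ≤ i + j + l := natDegree_mul_le.trans (add_le_add h1 hc)
  exact h2.trans h

private theorem c2_coeff_zero {a b c : ℤ[X]} {i j l m : ℕ} (ha : a.natDegree ≤ i) (hb : b.natDegree ≤ j)
    (hc : c.natDegree ≤ l) (h : i + j + l < m) : (a * b * c).coeff m = 0 := by
  refine coeff_eq_zero_of_natDegree_lt (lt_of_le_of_lt (c2_mul3_le ha hb hc le_rfl) h)

/-- the polynomial part: the determinant is a nonzero constant times the power -/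
private theorem c2_det (k : ℕ) (a b c d e f g h i A B Q0 Q1 Q2 : ℤ[X])
    (ha : a.natDegree = k + 1) (hb : b.natDegree = k) (hc : c.natDegree = k)
    (hd : d.natDegree = k) (he : e.natDegree = k + 1) (hf : f.natDegree = k)
    (hg : g.natDegree = k) (hh : h.natDegree = k) (hi : i.natDegree = k + 1)
    (h1 : a + A * b + B * c = (1 - X) ^ (3 * k + 3) * Q0)
    (h2 : d + A * e + B * f = (1 - X) ^ (3 * k + 3) * Q1)
    (h3 : g + A * h + B * i = (1 - X) ^ (3 * k + 3) * Q2) :
    ∃ z : ℤ, z ≠ 0 ∧ a * e * i - a * f * h - b * d * i + b * f * g + c * d * h - c * e * g =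
      (1 - X) ^ (3 * k + 3) * C z := by
  obtain ⟨R, hR⟩ : ∃ R : ℤ[X], R = Q0 * (e * i - f * h) - Q1 * (b * i - c * h) + Q2 * (b * f - c * e) := ⟨_, rfl⟩
  have e1 : a * e * i - a * f * h - b * d * i + b * f * g + c * d * h - c * e * g = (1 - X) ^ (3 * k + 3) * R := by
    have ea : a = (1 - X) ^ (3 * k + 3) * Q0 - A * b - B * c := by rw [← h1]; ring
    have ed : d = (1 - X) ^ (3 * k + 3) * Q1 - A * e - B * f := by rw [← h2]; ring
    have eg : g = (1 - X) ^ (3 * k + 3) * Q2 - A * h - B * i := by rw [← h3]; ring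
    rw [hR, ea, ed, eg]
    ring
  have hlead : ∀ p : ℤ[X], p.natDegree = k + 1 → p.coeff (k + 1) ≠ 0 := by
    intro p hp h0
    have : p.leadingCoeff = 0 := by rw [leadingCoeff, hp]; exact h0
    rw [leadingCoeff_eq_zero] at this
    rw [this, natDegree_zero] at hp
    omega
  have hcoe : (a * e * i - a * f * h - b * d * i + b * f * g + c * d * h - c * e * g).coeff (3 * k + 3) ≠ 0 := by
    have k1 : (a * f * h).coeff (3 * k + 3) = 0 := c2_coeff_zero ha.le hf.le hh.le (by omega)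
    have k2 : (b * d * i).coeff (3 * k + 3) = 0 := c2_coeff_zero hb.le hd.le hi.le (by omega)
    have k3 : (b * f * g).coeff (3 * k + 3) = 0 := c2_coeff_zero hb.le hf.le hg.le (by omega)
    have k4 : (c * d * h).coeff (3 * k + 3) = 0 := c2_coeff_zero hc.le hd.le hh.le (by omega)
    have k5 : (c * e * g).coeff (3 * k + 3) = 0 := c2_coeff_zero hc.le he.le hg.le (by omega)
    have k6 : (a * e * i).coeff (3 * k + 3) = a.coeff (k + 1) * e.coeff (k + 1) * i.coeff (k + 1) := by
      have m1 : (a * e).coeff (k + 1 + (k + 1)) = a.coeff (k + 1) * e.coeff (k + 1) :=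
        coeff_mul_add_eq_of_natDegree_le ha.le he.le
      have m2 : (a * e).natDegree ≤ k + 1 + (k + 1) := natDegree_mul_le.trans (add_le_add ha.le he.le)
      have m3 : (a * e * i).coeff (k + 1 + (k + 1) + (k + 1)) = (a * e).coeff (k + 1 + (k + 1)) * i.coeff (k + 1) :=
        coeff_mul_add_eq_of_natDegree_le m2 hi.le
      rw [show 3 * k + 3 = k + 1 + (k + 1) + (k + 1) by ring, m3, m1]
    rw [coeff_sub, coeff_add, coeff_add, coeff_sub, coeff_sub, k1, k2, k3, k4, k5, k6]
    simpa using ⟨⟨hlead a ha, hlead e he⟩, hlead i hi⟩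
  have hdeg : (a * e * i - a * f * h - b * d * i + b * f * g + c * d * h - c * e * g).natDegree ≤ 3 * k + 3 := by
    have k1 : (a * f * h).natDegree ≤ 3 * k + 3 := c2_mul3_le ha.le hf.le hh.le (by omega)
    have k2 : (b * d * i).natDegree ≤ 3 * k + 3 := c2_mul3_le hb.le hd.le hi.le (by omega)
    have k3 : (b * f * g).natDegree ≤ 3 * k + 3 := c2_mul3_le hb.le hf.le hg.le (by omega)
    have k4 : (c * d * h).natDegree ≤ 3 * k + 3 := c2_mul3_le hc.le hd.le hh.le (by omega)
    have k5 : (c * e * g).natDegree ≤ 3 * k + 3 := c2_mul3_le hc.le he.le hg.le (by omega)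
    have k6 : (a * e * i).natDegree ≤ 3 * k + 3 := c2_mul3_le ha.le he.le hi.le (by omega)
    have m1 := (natDegree_sub_le_of_le k6 k1).trans_eq (max_self _)
    have m2 := (natDegree_sub_le_of_le m1 k2).trans_eq (max_self _)
    have m3 := (natDegree_add_le_of_le m2 k3).trans_eq (max_self _)
    have m4 := (natDegree_add_le_of_le m3 k4).trans_eq (max_self _)
    exact (natDegree_sub_le_of_le m4 k5).trans_eq (max_self _)
  rw [e1] at hcoe hdeg
  have hR0 : R ≠ 0 := by
    intro h0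
    rw [h0, mul_zero, coeff_zero] at hcoe
    exact hcoe rfl
  have hX : (1 - X : ℤ[X]).natDegree = 1 := by
    rw [show (1 - X : ℤ[X]) = -(X - C 1) by rw [map_one]; ring, natDegree_neg, natDegree_X_sub_C]
  have hX0 : (1 - X : ℤ[X]) ≠ 0 := by
    intro h0
    rw [h0, natDegree_zero] at hX
    omega
  have hd2 : ((1 - X) ^ (3 * k + 3) * R).natDegree = 3 * k + 3 + R.natDegree := by
    rw [natDegree_mul (pow_ne_zero _ hX0) hR0, natDegree_pow, hX, mul_one]
  have hRd : R.natDegree = 0 := by omega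
  obtain ⟨z, hz⟩ := natDegree_eq_zero.1 hRd
  refine ⟨z, ?_, ?_⟩
  · rintro rfl
    rw [map_zero] at hz
    exact hR0 hz.symm
  · rw [e1, ← hz]

theorem approximants (N k : ℕ) (h : k + 2 ≤ N) :
    ∃ P : Fin 3 → Fin 3 → ℤ[X], (∀ i j, (P i j).natDegree ≤ k + 1) ∧
      (∀ i j c, |(P i j).coeff c| ≤ 8 ^ (2 * N + k + 1)) ∧
      (∀ i, (1 - X) ^ (3 * k + 3) ∣ P i 0 + X ^ N * P i 1 + X ^ (2 * N) * P i 2) ∧
      ∀ (x : ℚ), x ≠ 1 → ∀ v : Fin 3 → ℚ, v ≠ 0 → ∃ i, ∑ j, aeval x (P i j) * v j ≠ 0 := by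
  obtain ⟨a, b, c, ha, hb, hc, -, -, -, hB0, hD0⟩ := approximant N (k + 1) k k (by omega) (by omega)
  obtain ⟨d, e, f, hd, he, hf, -, -, -, hB1, hD1⟩ := approximant N k (k + 1) k (by omega) (by omega)
  obtain ⟨g, l, i, hg, hl, hi, -, -, -, hB2, hD2⟩ := approximant N k k (k + 1) (by omega) (by omega)
  rw [show k + 1 + k + k + 2 = 3 * k + 3 by ring] at hD0
  rw [show k + (k + 1) + k + 2 = 3 * k + 3 by ring] at hD1
  rw [show k + k + (k + 1) + 2 = 3 * k + 3 by ring] at hD2
  have hle : (8 : ℤ) ^ (2 * N + k) ≤ 8 ^ (2 * N + k + 1) := pow_le_pow_right₀ (by norm_num) (Nat.le_succ _)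
  refine ⟨fun r s => ![![a, b, c], ![d, e, f], ![g, l, i]] r s, ?_, ?_, ?_, ?_⟩
  · intro r s
    fin_cases r <;> fin_cases s <;> simp [ha, hb, hc, hd, he, hf, hg, hl, hi]
  · intro r s t
    fin_cases r <;> fin_cases s
    · exact (hB0 t).1.trans hle
    · exact (hB0 t).2.1.trans hle
    · exact (hB0 t).2.2.trans hle
    · exact (hB1 t).1.trans hle
    · exact (hB1 t).2.1.trans hle
    · exact (hB1 t).2.2.trans hle
    · exact (hB2 t).1
    · exact (hB2 t).2.1
    · exact (hB2 t).2.2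
  · intro r
    fin_cases r
    · exact hD0
    · exact hD1
    · exact hD2
  · intro x hx v hv
    obtain ⟨Q0, hQ0⟩ := hD0
    obtain ⟨Q1, hQ1⟩ := hD1
    obtain ⟨Q2, hQ2⟩ := hD2
    obtain ⟨z, hz0, hz⟩ := c2_det k a b c d e f g l i (X ^ N) (X ^ (2 * N)) Q0 Q1 Q2 ha hb hc hd he hf hg hl hi hQ0 hQ1 hQ2
    by_contra hcon
    push Not at hcon
    have hdet : (Matrix.of fun r s : Fin 3 => (aeval x (![![a, b, c], ![d, e, f], ![g, l, i]] r s) : ℚ)).det = 0 := by
      rw [← Matrix.exists_mulVec_eq_zero_iff]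
      refine ⟨v, hv, ?_⟩
      ext r
      exact hcon r
    rw [Matrix.det_fin_three] at hdet
    have h1 := congrArg (fun p : ℤ[X] => (aeval x p : ℚ)) hz
    simp only [map_mul, map_add, map_sub, map_pow, map_one, aeval_X, aeval_C] at h1
    simp at hdet
    rw [hdet] at h1
    have h2 : (1 - x) ^ (3 * k + 3) ≠ 0 := pow_ne_zero _ (sub_ne_zero.2 (Ne.symm hx))
    have h3 : (algebraMap ℤ ℚ) z ≠ 0 := by
      simpa using hz0
    exact mul_ne_zero h2 h3 h1.symm

end ETT
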