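import Mathlib

/-! C3 (60 minutes). The size of a polynomial which vanishes to high order at 1.
PROOF. Let `F = (1 - X)^V R`. For complex `z` with `‖z‖ = 3`, `‖1 - z‖ ≥ 2`, so
`‖R z‖ ≤ ‖F z‖ ≤ (n+1) B 3^n`. By the maximum principle on the ball of radius 3
(`Complex.norm_le_of_forall_mem_frontier_norm_le`) the same bound holds for `R` at every point
`x` with `|x| ≤ 2`, and `|F x| = |1-x|^V |R x|`. (An alternative without complex analysis:
`R = F (1-X)^(-V)` as a power series, coefficients at most `B 2^(V+n) ..`; any bound of the stated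
form is fine.) -/

open Polynomial

namespace ETT

theorem small_near_one (F : ℤ[X]) (n V : ℕ) (B : ℝ) (hn : F.natDegree ≤ n)
    (hB : ∀ c, |(F.coeff c : ℝ)| ≤ B) (hV : (1 - X) ^ V ∣ F) (x : ℝ) (hx : |x| ≤ 2) :
    |aeval x F| ≤ |1 - x| ^ V * ((n + 1) * B * 3 ^ n) := by
  have hB0 : 0 ≤ B := (abs_nonneg _).trans (hB 0)
  obtain ⟨R, hR⟩ := hV
  have hsplit : ∀ z : ℂ, aeval z F = (1 - z) ^ V * aeval z R := by
    intro z
    rw [hR]
    simp
  have hbd : ∀ z : ℂ, ‖z‖ = 3 → ‖aeval z F‖ ≤ (n + 1) * B * 3 ^ n := by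
    intro z hz
    rw [Polynomial.aeval_eq_sum_range' (Nat.lt_succ_of_le hn) z]
    refine (norm_sum_le _ _).trans ?_
    have h1 : ∀ c ∈ Finset.range (n + 1), ‖F.coeff c • z ^ c‖ ≤ B * 3 ^ n := by
      intro c hc
      rw [Finset.mem_range] at hc
      rw [zsmul_eq_mul, norm_mul, norm_pow, hz, Complex.norm_intCast]
      exact mul_le_mul (hB c) (pow_le_pow_right₀ (by norm_num) (by omega)) (by positivity) hB0
    refine (Finset.sum_le_sum h1).trans (le_of_eq ?_)
    rw [Finset.sum_const, Finset.card_range, nsmul_eq_mul]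
    push_cast
    ring
  have hmax : ∀ z : ℂ, ‖z‖ ≤ 3 → ‖aeval z R‖ ≤ (n + 1) * B * 3 ^ n := by
    intro z hz
    refine Complex.norm_le_of_forall_mem_frontier_norm_le (U := Metric.ball (0 : ℂ) 3) Metric.isBounded_ball
      (f := fun z => aeval z R) ?_ ?_ ?_
    · apply Differentiable.diffContOnCl
      exact Polynomial.differentiable_aeval R
    · intro w hw
      rw [frontier_ball (0 : ℂ) (by norm_num : (3 : ℝ) ≠ 0), mem_sphere_zero_iff_norm] at hw
      have h1 := hbd w hw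
      rw [hsplit w, norm_mul, norm_pow] at h1
      have h2 : 1 ≤ ‖1 - w‖ := by
        have h3 : ‖w‖ ≤ ‖(1 : ℂ)‖ + ‖1 - w‖ := by
          have h4 : w = 1 - (1 - w) := by ring
          calc ‖w‖ = ‖1 - (1 - w)‖ := by rw [← h4]
            _ ≤ ‖(1 : ℂ)‖ + ‖1 - w‖ := norm_sub_le _ _
        rw [hw, norm_one] at h3
        linarith
      have h3 : 1 ≤ ‖1 - w‖ ^ V := one_le_pow₀ h2
      exact (le_mul_of_one_le_left (norm_nonneg _) h3).trans h1
    · rw [closure_ball (0 : ℂ) (by norm_num : (3 : ℝ) ≠ 0)]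
      rw [mem_closedBall_zero_iff]
      exact hz
  have hx3 : ‖(x : ℂ)‖ ≤ 3 := by
    rw [Complex.norm_real, Real.norm_eq_abs]
    linarith
  have h1 : ‖aeval (x : ℂ) F‖ = |aeval x F| := by
    have h2 : aeval (x : ℂ) F = ((aeval x F : ℝ) : ℂ) := Polynomial.aeval_algebraMap_apply ℂ x F
    rw [h2, Complex.norm_real, Real.norm_eq_abs]
  rw [← h1, hsplit, norm_mul, norm_pow]
  have h2 : ‖1 - (x : ℂ)‖ = |1 - x| := by
    have h3 : 1 - (x : ℂ) = ((1 - x : ℝ) : ℂ) := by push_cast; ring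
    rw [h3, Complex.norm_real, Real.norm_eq_abs]
  rw [h2]
  exact mul_le_mul_of_nonneg_left (hmax _ hx3) (by positivity)

end ETT
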