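import Pool.Agent.Lib.MP_a7ed83_ag.C.C2
import Pool.Agent.Lib.MP_a7ed83_ag.C.C3

/-! C4 (90 minutes). The basic inequality.
PROOF. Let `X = x/y`, `S = s₁/s₂`, `X' = S X^N` (real or rational numbers), `P i j` from
`approximants N k`. Let `Fᵢ = P i 0 + X^N P i 1 + X^(2N) P i 2` (coefficients bounded by
`8^(2N+k+1)`: the blocks do not overlap because `k + 2 ≤ N`; degree ≤ `2N+k+1 ≤ 3N`). By
`approximants` with the vector `v = (S², S, 1)` there is `i` with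
`G := S² P₀(X) + S P₁(X) + P₂(X) ≠ 0`. `s₂² y^(k+1) G` is a nonzero integer, so
`1 ≤ s₂² y^(k+1) |G|`. `S² F(X) = S² P₀ + S X' P₁ + X'² P₂`, so
`|G| ≤ S² |F(X)| + S |P₁(X)| ε' + |P₂(X)| (5/2) ε'` (`|1 - X'²| ≤ (5/2) ε'`). `small_near_one`
with `n = 3N`, `B = 8^(3N)`: `|F(X)| ≤ ε^(3k+3) (3N+1) 8^(3N) 3^(3N)`, and
`|P_j(X)| ≤ ∑_(c ≤ k+1) 8^(3N) (3/2)^c ≤ 8^(3N) 2^(3N)`. All constants are at most
`48^(3N) = 110592^N ≤ 2^(17 N)` (`3N+1 ≤ 2^(3N)`). -/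

open Polynomial

namespace ETT

private lemma C4_int (Q : ℤ[X]) (K x y : ℕ) (hy : 0 < y) (hQ : Q.natDegree ≤ K) :
    ∃ m : ℤ, (y : ℚ) ^ K * aeval ((x : ℚ) / y) Q = m := by
  have hy0 : (y : ℚ) ≠ 0 := by exact_mod_cast hy.ne'
  refine ⟨∑ c ∈ Finset.range (K + 1), Q.coeff c * (x : ℤ) ^ c * (y : ℤ) ^ (K - c), ?_⟩
  rw [Polynomial.aeval_eq_sum_range' (Nat.lt_succ_of_le hQ), Finset.mul_sum]
  push_cast
  refine Finset.sum_congr rfl fun c hc => ?_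
  rw [Finset.mem_range] at hc
  have h1 : (y : ℚ) ^ K = (y : ℚ) ^ (K - c) * (y : ℚ) ^ c := by
    rw [← pow_add, Nat.sub_add_cancel (by omega)]
  rw [zsmul_eq_mul, div_pow, h1]
  field_simp

private lemma C4_cast (Q : ℤ[X]) (x y : ℕ) :
    aeval ((x : ℝ) / y) Q = ((aeval ((x : ℚ) / y) Q : ℚ) : ℝ) := by
  have h := Polynomial.aeval_algebraMap_apply ℝ ((x : ℚ) / y) Q
  rw [← eq_ratCast (algebraMap ℚ ℝ) (aeval ((x : ℚ) / y) Q), ← h]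
  congr 1
  rw [eq_ratCast]
  push_cast
  rfl

private lemma C4_size (Q : ℤ[X]) (K L : ℕ) (hQ : Q.natDegree ≤ K) (hc : ∀ c, |Q.coeff c| ≤ 8 ^ L) (X : ℝ)
    (h0 : 0 ≤ X) (h2 : X ≤ 2) : |aeval X Q| ≤ (K + 1 : ℕ) * 8 ^ L * 2 ^ K := by
  rw [Polynomial.aeval_eq_sum_range' (Nat.lt_succ_of_le hQ)]
  refine (Finset.abs_sum_le_sum_abs _ _).trans ?_
  have h1 : ∀ c ∈ Finset.range (K + 1), |Q.coeff c • X ^ c| ≤ (8 : ℝ) ^ L * 2 ^ K := by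
    intro c hcm
    rw [Finset.mem_range] at hcm
    rw [zsmul_eq_mul, abs_mul, abs_pow, abs_of_nonneg h0]
    have h3 : |((Q.coeff c : ℤ) : ℝ)| ≤ 8 ^ L := by
      have := hc c
      rw [← Int.cast_abs]
      exact_mod_cast this
    have h4 : X ^ c ≤ 2 ^ K := (pow_le_pow_left₀ h0 h2 c).trans (pow_le_pow_right₀ (by norm_num) (by omega))
    exact mul_le_mul h3 h4 (by positivity) (by positivity)
  refine (Finset.sum_le_sum h1).trans (le_of_eq ?_)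
  rw [Finset.sum_const, Finset.card_range, nsmul_eq_mul]
  ring

private lemma C4_two (N : ℕ) : N ≤ 2 ^ N := Nat.lt_two_pow_self.le

private lemma C4_b1 (N k : ℕ) (h : k + 2 ≤ N) :
    (((k + 1 : ℕ) + 1 : ℕ) : ℝ) * 8 ^ (2 * N + k + 1) * 2 ^ (k + 1) ≤ 2 ^ (17 * N) := by
  have h1 : (k + 1 + 1) * 8 ^ (2 * N + k + 1) * 2 ^ (k + 1) ≤ 2 ^ (17 * N) := by
    have e1 : k + 1 + 1 ≤ 2 ^ N := (show k + 1 + 1 ≤ N by omega).trans (C4_two N)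
    have e2 : 8 ^ (2 * N + k + 1) ≤ 8 ^ (3 * N) := Nat.pow_le_pow_right (by norm_num) (by omega)
    have e3 : 2 ^ (k + 1) ≤ 2 ^ N := Nat.pow_le_pow_right (by norm_num) (by omega)
    calc (k + 1 + 1) * 8 ^ (2 * N + k + 1) * 2 ^ (k + 1) ≤ 2 ^ N * 8 ^ (3 * N) * 2 ^ N :=
          Nat.mul_le_mul (Nat.mul_le_mul e1 e2) e3
      _ = 2 ^ (11 * N) := by
          rw [show (8 : ℕ) = 2 ^ 3 by norm_num, ← pow_mul, ← pow_add, ← pow_add]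
          congr 1
          ring
      _ ≤ 2 ^ (17 * N) := Nat.pow_le_pow_right (by norm_num) (by omega)
  exact_mod_cast h1

private lemma C4_b2 (N : ℕ) : (((3 * N : ℕ) : ℝ) + 1) * 8 ^ (3 * N) * 3 ^ (3 * N) ≤ 2 ^ (17 * N) := by
  have h1 : (3 * N + 1) * 8 ^ (3 * N) * 3 ^ (3 * N) ≤ 2 ^ (17 * N) := by
    have e1 : 3 * N + 1 ≤ 2 ^ (3 * N) := Nat.lt_two_pow_self
    calc (3 * N + 1) * 8 ^ (3 * N) * 3 ^ (3 * N) ≤ 2 ^ (3 * N) * 8 ^ (3 * N) * 3 ^ (3 * N) :=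
          Nat.mul_le_mul_right _ (Nat.mul_le_mul_right _ e1)
      _ = 110592 ^ N := by
          rw [← mul_pow, ← mul_pow, pow_mul]
          norm_num
      _ ≤ 131072 ^ N := Nat.pow_le_pow_left (by norm_num) N
      _ = 2 ^ (17 * N) := by
          rw [pow_mul]
          norm_num
  exact_mod_cast h1

theorem basic_ineq (N k : ℕ) (h : k + 2 ≤ N) (x y s₁ s₂ : ℕ) (hx : 0 < x) (hy : 0 < y)
    (h1 : 0 < s₁) (h2 : 0 < s₂) (hxy : x ≠ y) (ε ε' : ℝ) (hε : ε ≤ 1 / 2) (hε' : ε' ≤ 1 / 2)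
    (hX : |(x : ℝ) / y - 1| ≤ ε)
    (hX' : |(s₁ : ℝ) / s₂ * ((x : ℝ) / y) ^ N - 1| ≤ ε') :
    1 ≤ (y : ℝ) ^ (k + 1) * 2 ^ (17 * N) *
      ((s₁ : ℝ) ^ 2 * ε ^ (3 * k + 3) + ((s₁ : ℝ) * s₂ + 3 * (s₂ : ℝ) ^ 2) * ε') := by
  obtain ⟨P, hdeg, hcoef, hdvd, hdet⟩ := approximants N k h
  have hy0 : (y : ℚ) ≠ 0 := by exact_mod_cast hy.ne'
  have hX1 : (x : ℚ) / y ≠ 1 := by
    rw [ne_eq, div_eq_one_iff_eq hy0]
    exact_mod_cast hxy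
  have hv : (![((s₁ : ℚ) / s₂) ^ 2, (s₁ : ℚ) / s₂, 1] : Fin 3 → ℚ) ≠ 0 := by
    intro h0
    have h3 := congrFun h0 2
    simp at h3
  obtain ⟨i, hi⟩ := hdet _ hX1 _ hv
  rw [Fin.sum_univ_three] at hi
  have hi' : aeval ((x : ℚ) / y) (P i 0) * ((s₁ : ℚ) / s₂) ^ 2 + aeval ((x : ℚ) / y) (P i 1) * ((s₁ : ℚ) / s₂) +
      aeval ((x : ℚ) / y) (P i 2) ≠ 0 := by
    intro h0
    apply hi
    simpa using h0
  obtain ⟨m0, hm0⟩ := C4_int (P i 0) (k + 1) x y hy (hdeg i 0)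
  obtain ⟨m1, hm1⟩ := C4_int (P i 1) (k + 1) x y hy (hdeg i 1)
  obtain ⟨m2, hm2⟩ := C4_int (P i 2) (k + 1) x y hy (hdeg i 2)
  have hs2 : (s₂ : ℚ) ≠ 0 := by exact_mod_cast h2.ne'
  have hint : (s₂ : ℚ) ^ 2 * (y : ℚ) ^ (k + 1) * (aeval ((x : ℚ) / y) (P i 0) * ((s₁ : ℚ) / s₂) ^ 2 +
      aeval ((x : ℚ) / y) (P i 1) * ((s₁ : ℚ) / s₂) + aeval ((x : ℚ) / y) (P i 2)) =
      (((s₁ : ℤ) ^ 2 * m0 + s₁ * s₂ * m1 + (s₂ : ℤ) ^ 2 * m2 : ℤ) : ℚ) := by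
    push_cast
    rw [← hm0, ← hm1, ← hm2]
    field_simp
  have hne : ((s₁ : ℤ) ^ 2 * m0 + s₁ * s₂ * m1 + (s₂ : ℤ) ^ 2 * m2) ≠ 0 := by
    intro h0
    rw [h0, Int.cast_zero] at hint
    have h4 : (s₂ : ℚ) ^ 2 * (y : ℚ) ^ (k + 1) ≠ 0 := mul_ne_zero (pow_ne_zero _ hs2) (pow_ne_zero _ hy0)
    exact hi' ((mul_eq_zero.1 hint).resolve_left h4)
  have hone : (1 : ℝ) ≤ |(((s₁ : ℤ) ^ 2 * m0 + s₁ * s₂ * m1 + (s₂ : ℤ) ^ 2 * m2 : ℤ) : ℝ)| := by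
    rw [← Int.cast_abs]
    exact_mod_cast Int.one_le_abs hne
  obtain ⟨Xr, hXr⟩ : ∃ Xr : ℝ, Xr = (x : ℝ) / y := ⟨_, rfl⟩
  obtain ⟨Sr, hSr⟩ : ∃ Sr : ℝ, Sr = (s₁ : ℝ) / s₂ := ⟨_, rfl⟩
  obtain ⟨G, hG⟩ : ∃ G : ℝ, G = aeval Xr (P i 0) * Sr ^ 2 + aeval Xr (P i 1) * Sr + aeval Xr (P i 2) := ⟨_, rfl⟩
  have hintR : (s₂ : ℝ) ^ 2 * (y : ℝ) ^ (k + 1) * G =
      (((s₁ : ℤ) ^ 2 * m0 + s₁ * s₂ * m1 + (s₂ : ℤ) ^ 2 * m2 : ℤ) : ℝ) := by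
    rw [hG, hXr, hSr, C4_cast, C4_cast, C4_cast]
    have h5 := congrArg (fun q : ℚ => (q : ℝ)) hint
    push_cast at h5 ⊢
    exact h5
  rw [← hintR, abs_mul, abs_of_nonneg (by positivity : (0 : ℝ) ≤ (s₂ : ℝ) ^ 2 * (y : ℝ) ^ (k + 1))] at hone
  rw [← hXr] at hX hX'
  rw [← hSr] at hX'
  have hε0 : 0 ≤ ε := (abs_nonneg _).trans hX
  have hε'0 : 0 ≤ ε' := (abs_nonneg _).trans hX'
  have hXl := abs_le.1 hX
  have hX0 : 0 ≤ Xr := by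
    rw [hXr]
    positivity
  have hX2 : Xr ≤ 2 := by linarith [hXl.2]
  have hS0 : 0 ≤ Sr := by
    rw [hSr]
    positivity
  -- the polynomial F
  obtain ⟨F, hF⟩ : ∃ F : ℤ[X], F = P i 0 + X ^ N * P i 1 + X ^ (2 * N) * P i 2 := ⟨_, rfl⟩
  have hFdeg : F.natDegree ≤ 3 * N := by
    rw [hF]
    refine (natDegree_add_le _ _).trans (max_le ((natDegree_add_le _ _).trans (max_le ?_ ?_)) ?_)
    · exact (hdeg i 0).trans (by omega)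
    · refine natDegree_mul_le.trans ?_
      have := hdeg i 1
      rw [natDegree_X_pow]
      omega
    · refine natDegree_mul_le.trans ?_
      have := hdeg i 2
      rw [natDegree_X_pow]
      omega
  have hFc : ∀ c, |(F.coeff c : ℝ)| ≤ (8 : ℝ) ^ (3 * N) := by
    intro c
    have e : ∀ (n : ℕ) (j : Fin 3), |(X ^ n * P i j).coeff c| ≤ 8 ^ (2 * N + k + 1) := by
      intro n j
      rw [coeff_X_pow_mul']
      split_ifs with hc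
      · exact hcoef i j _
      · rw [abs_zero]
        positivity
    have h6 : |F.coeff c| ≤ 3 * 8 ^ (2 * N + k + 1) := by
      rw [hF, coeff_add, coeff_add]
      have a1 := hcoef i 0 c
      have a2 := e N 1
      have a3 := e (2 * N) 2
      have a4 := abs_add_le ((P i 0).coeff c + (X ^ N * P i 1).coeff c) ((X ^ (2 * N) * P i 2).coeff c)
      have a5 := abs_add_le ((P i 0).coeff c) ((X ^ N * P i 1).coeff c)
      linarith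
    have h7 : (3 : ℤ) * 8 ^ (2 * N + k + 1) ≤ 8 ^ (3 * N) := by
      calc (3 : ℤ) * 8 ^ (2 * N + k + 1) ≤ 8 * 8 ^ (2 * N + k + 1) := by
            have : (0 : ℤ) < 8 ^ (2 * N + k + 1) := by positivity
            linarith
        _ = 8 ^ (2 * N + k + 2) := by ring
        _ ≤ 8 ^ (3 * N) := pow_le_pow_right₀ (by norm_num) (by omega)
    rw [← Int.cast_abs]
    exact_mod_cast h6.trans h7
  have hFd : (1 - X) ^ (3 * k + 3) ∣ F := by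
    rw [hF]
    exact hdvd i
  have hFs := small_near_one F (3 * N) (3 * k + 3) (8 ^ (3 * N)) hFdeg hFc hFd Xr (by
    rw [abs_of_nonneg hX0]
    exact hX2)
  have hFv : |aeval Xr F| ≤ ε ^ (3 * k + 3) * 2 ^ (17 * N) := by
    refine hFs.trans ?_
    have e1 : |1 - Xr| ^ (3 * k + 3) ≤ ε ^ (3 * k + 3) := by
      rw [abs_sub_comm]
      exact pow_le_pow_left₀ (abs_nonneg _) hX _
    exact mul_le_mul e1 (C4_b2 N) (by positivity) (by positivity)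
  have hP1 : |aeval Xr (P i 1)| ≤ 2 ^ (17 * N) :=
    (C4_size (P i 1) (k + 1) _ (hdeg i 1) (hcoef i 1) Xr hX0 hX2).trans (C4_b1 N k h)
  have hP2 : |aeval Xr (P i 2)| ≤ 2 ^ (17 * N) :=
    (C4_size (P i 2) (k + 1) _ (hdeg i 2) (hcoef i 2) Xr hX0 hX2).trans (C4_b1 N k h)
  obtain ⟨X', hX'd⟩ : ∃ X' : ℝ, X' = Sr * Xr ^ N := ⟨_, rfl⟩
  rw [← hX'd] at hX'
  have hGe : G = Sr ^ 2 * aeval Xr F + Sr * (1 - X') * aeval Xr (P i 1) + (1 - X') * (1 + X') * aeval Xr (P i 2) := by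
    rw [hG, hF, hX'd]
    simp only [map_add, map_mul, map_pow, aeval_X]
    rw [pow_mul']
    ring
  have hX'b : |1 + X'| ≤ 3 := by
    have h8 := abs_le.1 hX'
    rw [abs_le]
    constructor <;> linarith [h8.1, h8.2]
  have hGb : |G| ≤ 2 ^ (17 * N) * (Sr ^ 2 * ε ^ (3 * k + 3) + (Sr + 3) * ε') := by
    rw [hGe]
    have a1 := abs_add_le (Sr ^ 2 * aeval Xr F + Sr * (1 - X') * aeval Xr (P i 1)) ((1 - X') * (1 + X') * aeval Xr (P i 2))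
    have a2 := abs_add_le (Sr ^ 2 * aeval Xr F) (Sr * (1 - X') * aeval Xr (P i 1))
    have b1 : |Sr ^ 2 * aeval Xr F| ≤ Sr ^ 2 * (ε ^ (3 * k + 3) * 2 ^ (17 * N)) := by
      rw [abs_mul, abs_of_nonneg (sq_nonneg Sr)]
      exact mul_le_mul_of_nonneg_left hFv (sq_nonneg _)
    have hX'c : |1 - X'| ≤ ε' := by
      rw [abs_sub_comm]
      exact hX'
    have b2 : |Sr * (1 - X') * aeval Xr (P i 1)| ≤ Sr * ε' * 2 ^ (17 * N) := by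
      rw [abs_mul, abs_mul, abs_of_nonneg hS0]
      exact mul_le_mul (mul_le_mul_of_nonneg_left hX'c hS0) hP1 (abs_nonneg _) (by positivity)
    have b3 : |(1 - X') * (1 + X') * aeval Xr (P i 2)| ≤ ε' * 3 * 2 ^ (17 * N) := by
      rw [abs_mul, abs_mul]
      exact mul_le_mul (mul_le_mul hX'c hX'b (abs_nonneg _) hε'0) hP2 (abs_nonneg _) (by positivity)
    linarith
  have hfin : (s₂ : ℝ) ^ 2 * (y : ℝ) ^ (k + 1) * |G| ≤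
      (s₂ : ℝ) ^ 2 * (y : ℝ) ^ (k + 1) * (2 ^ (17 * N) * (Sr ^ 2 * ε ^ (3 * k + 3) + (Sr + 3) * ε')) :=
    mul_le_mul_of_nonneg_left hGb (by positivity)
  refine hone.trans (hfin.trans (le_of_eq ?_))
  have hs2R : (s₂ : ℝ) ≠ 0 := by exact_mod_cast h2.ne'
  rw [hSr]
  field_simp

end ETT
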