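import Pool.Agent.Lib.MP_a7ed83_ag.C.C4

/-! C5 (120 minutes). `|A a^m - B b^n| ≤ C sqrt(b^n)` has only finitely many solutions with
`A a^m ≠ B b^n`... for multiplicatively independent `a`, `b`.
PROOF. We may take `C ≥ 1`. Suppose the set is infinite. For given `n` only finitely many `m` are
possible, so `n` is unbounded. At most one pair has `A a^m = B b^n` (independence). Let
`C₁ = C * sqrt B`; `|A a^m / (B b^n) - 1| ≤ C / (B b^(n/2)) ≤ C₁ (B b^n)^(-1/2)`.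
Let `c = 2^20 (4 A B)^2 C₁^3 B` (≥ 1) and choose a solution `(m, n)`, `n ≥ 1`, with
`y := B b^n ≥ (4 c)^20` (so in particular `C₁ y^(-1/2) ≤ 1/2`), `x := A a^m ≠ y`. Choose a solution
`(m', n')` with `n' ≥ 100 n` and let `N = n' / n` (integer division), `N ≥ 100`, `k = N / 4`.
`x' = A a^m'`, `y' = B b^n'`. Put `X = x/y`, `X' = x'/y'`, `S = X'/X^N
= B^(N-1) a^m' / (A^(N-1) b^(n' - nN) a^(mN))` with `0 ≤ n' - nN < n`. If `m' ≥ mN`: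
`s₁ = B^(N-1) a^(m'-mN)`, `s₂ = A^(N-1) b^(n'-nN) ≤ A^N y`; if `m' < mN`: `s₁ = B^(N-1)`,
`s₂ = A^(N-1) b^(n'-nN) a^(mN-m')`. Since `1/2 ≤ X ≤ 3/2` and `1/2 ≤ X' ≤ 3/2`,
`S ∈ [(1/2)(2/3)^N, (3/2) 2^N]`, so in both cases `s₁, s₂ ≤ 2 y (4AB)^N`. `basic_ineq` with
`ε = C₁ y^(-1/2)`, `ε' = C₁ y'^(-1/2) ≤ C₁ y^(-N/2) B^(N/2)` (because `y' ≥ B b^(nN) ≥ y^N / B^N`)
gives `1 ≤ y^(k+1) 2^(17N) (4AB)^(2N) 16 y² (C₁^(3k+3) y^(-(3k+3)/2) + C₁ B^(N/2) y^(-N/2))`.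
The exponents of `y`: `k+3-(3k+3)/2 = 3/2 - k/2 ≤ 2 - N/8 ≤ -N/10` and
`k+3-N/2 ≤ 3 - N/4 ≤ -N/10` (as `N ≥ 100`, `N/4 - 1 ≤ k ≤ N/4`). So `1 ≤ 32 c^N y^(-N/10)`
(all constants are `≤ c^N`), which contradicts `y ≥ (4c)^20` (`y^(N/10) ≥ (4c)^(2N) > 32 c^N`). It is
convenient to work with squares or with `Real.rpow`. -/

open Polynomial

namespace ETT

private theorem C5_large (a b A B : ℕ) (ha : 2 ≤ a) (hb : 2 ≤ b) (hA : 0 < A) (hB : 0 < B)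
    (hind : ∀ m n : ℕ, 0 < m → a ^ m ≠ b ^ n) (C : ℝ)
    (hinf : ¬ {z : ℕ × ℕ | |(A : ℝ) * a ^ z.1 - B * b ^ z.2| ≤
      C * Real.sqrt ((b : ℝ) ^ z.2)}.Finite) (n0 : ℕ) :
    ∃ m n : ℕ, n0 ≤ n ∧ A * a ^ m ≠ B * b ^ n ∧
      |(A : ℝ) * a ^ m - B * b ^ n| ≤ C * Real.sqrt ((b : ℝ) ^ n) := by
  by_contra hcon
  push Not at hcon
  apply hinf
  have hb1 : (1 : ℝ) ≤ b := by exact_mod_cast (by omega : 1 ≤ b)
  set K : ℕ := ⌈(B : ℝ) * b ^ n0 + |C| * Real.sqrt ((b : ℝ) ^ n0)⌉₊ with hK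
  have hf1 : ({z : ℕ × ℕ | z.1 ≤ K ∧ z.2 < n0} : Set (ℕ × ℕ)).Finite := by
    refine Set.Finite.subset ((Set.finite_Iic K).prod (Set.finite_Iio n0)) ?_
    intro z hz
    exact ⟨hz.1, hz.2⟩
  have hf2 : ({z : ℕ × ℕ | A * a ^ z.1 = B * b ^ z.2} : Set (ℕ × ℕ)).Finite := by
    refine Set.Subsingleton.finite ?_
    have key : ∀ p q r t : ℕ, A * a ^ p = B * b ^ q → A * a ^ r = B * b ^ t → ¬ p < r := by
      intro p q r t h1 h2 h3
      obtain ⟨e, rfl⟩ : ∃ e, r = p + e := ⟨r - p, by omega⟩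
      have h4 : b ^ q * a ^ e = b ^ t := by
        have h5 : B * (b ^ q * a ^ e) = B * b ^ t := by
          rw [← h2, pow_add, ← mul_assoc, ← h1]
          ring
        exact Nat.eq_of_mul_eq_mul_left hB h5
      have h6 : b ^ q ≤ b ^ t := by
        rw [← h4]
        exact Nat.le_mul_of_pos_right _ (pow_pos (by omega) _)
      have h7 : q ≤ t := (Nat.pow_le_pow_iff_right (by omega)).1 h6
      obtain ⟨d, rfl⟩ : ∃ d, t = q + d := ⟨t - q, by omega⟩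
      rw [pow_add] at h4
      exact hind e d (by omega) (Nat.eq_of_mul_eq_mul_left (pow_pos (by omega) _) h4)
    intro z hz z' hz'
    have hz1 : A * a ^ z.1 = B * b ^ z.2 := hz
    have hz2 : A * a ^ z'.1 = B * b ^ z'.2 := hz'
    have h1 : z.1 = z'.1 := by
      have h3 := key _ _ _ _ hz1 hz2
      have h4 := key _ _ _ _ hz2 hz1
      omega
    have h2 : z.2 = z'.2 := by
      rw [h1, hz2] at hz1
      have h3 := Nat.eq_of_mul_eq_mul_left hB hz1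
      exact (Nat.pow_right_injective hb h3).symm
    exact Prod.ext h1 h2
  refine Set.Finite.subset (hf1.union hf2) ?_
  intro z hz
  have hz' : |(A : ℝ) * a ^ z.1 - B * b ^ z.2| ≤ C * Real.sqrt ((b : ℝ) ^ z.2) := hz
  by_cases h1 : n0 ≤ z.2
  · right
    by_contra h2
    have h3 := hcon z.1 z.2 h1 h2
    linarith
  · left
    push Not at h1
    refine ⟨?_, h1⟩
    have h2 : (b : ℝ) ^ z.2 ≤ (b : ℝ) ^ n0 := pow_le_pow_right₀ hb1 h1.le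
    have h3 : Real.sqrt ((b : ℝ) ^ z.2) ≤ Real.sqrt ((b : ℝ) ^ n0) := Real.sqrt_le_sqrt h2
    have h4 : C * Real.sqrt ((b : ℝ) ^ z.2) ≤ |C| * Real.sqrt ((b : ℝ) ^ n0) :=
      mul_le_mul (le_abs_self C) h3 (Real.sqrt_nonneg _) (abs_nonneg _)
    have h5 := (abs_le.1 hz').2
    have h6 : (B : ℝ) * b ^ z.2 ≤ B * b ^ n0 := mul_le_mul_of_nonneg_left h2 (Nat.cast_nonneg _)
    have h7 : (z.1 : ℝ) ≤ (A : ℝ) * a ^ z.1 := by
      have h8 : z.1 ≤ A * a ^ z.1 :=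
        (Nat.lt_pow_self (by omega)).le.trans (Nat.le_mul_of_pos_left _ hA)
      exact_mod_cast h8
    have h9 : (z.1 : ℝ) ≤ (K : ℝ) := by
      refine le_trans ?_ (Nat.le_ceil _)
      linarith
    exact_mod_cast h9

private theorem C5_ratio (a b A B : ℕ) (hb : 2 ≤ b) (hB : 0 < B) (C : ℝ) (hC : 1 ≤ C) (m n : ℕ)
    (h : |(A : ℝ) * a ^ m - B * b ^ n| ≤ C * Real.sqrt ((b : ℝ) ^ n)) :
    |((A * a ^ m : ℕ) : ℝ) / ((B * b ^ n : ℕ) : ℝ) - 1| ≤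
      C / Real.sqrt ((B * b ^ n : ℕ) : ℝ) := by
  have hb0 : (0 : ℝ) < b := by exact_mod_cast (by omega : 0 < b)
  have hB0 : (1 : ℝ) ≤ B := by exact_mod_cast hB
  have hy : (0 : ℝ) < ((B * b ^ n : ℕ) : ℝ) := by
    push_cast
    positivity
  set w : ℝ := Real.sqrt ((B * b ^ n : ℕ) : ℝ) with hw
  have hw0 : 0 < w := Real.sqrt_pos.2 hy
  have hww : w * w = ((B * b ^ n : ℕ) : ℝ) := Real.mul_self_sqrt hy.le
  have h1 : Real.sqrt ((b : ℝ) ^ n) ≤ w := by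
    apply Real.sqrt_le_sqrt
    push_cast
    exact le_mul_of_one_le_left (by positivity) hB0
  have e1 : ((A * a ^ m : ℕ) : ℝ) / ((B * b ^ n : ℕ) : ℝ) - 1 =
      ((A : ℝ) * a ^ m - B * b ^ n) / ((B * b ^ n : ℕ) : ℝ) := by
    rw [div_sub_one hy.ne']
    push_cast
    rfl
  rw [e1, abs_div, abs_of_pos hy, ← hww, div_le_div_iff₀ (mul_pos hw0 hw0) hw0]
  have h2 : C * Real.sqrt ((b : ℝ) ^ n) ≤ C * w := mul_le_mul_of_nonneg_left h1 (by linarith)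
  calc |(A : ℝ) * a ^ m - B * b ^ n| * w ≤ (C * w) * w :=
        mul_le_mul_of_nonneg_right (h.trans h2) hw0.le
    _ = C * (w * w) := by ring

private theorem C5_s (a b A B m n m' n' N : ℕ) (ha : 0 < a) (hb : 0 < b) (hA : 0 < A) (hB : 0 < B)
    (hN1 : 1 ≤ N) (hN : n * N ≤ n') : ∃ s₁ s₂ : ℕ, 0 < s₁ ∧ 0 < s₂ ∧
      (s₁ : ℝ) / s₂ * (((A * a ^ m : ℕ) : ℝ) / ((B * b ^ n : ℕ) : ℝ)) ^ N =
        ((A * a ^ m' : ℕ) : ℝ) / ((B * b ^ n' : ℕ) : ℝ) ∧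
      (s₁ = B ^ (N - 1) ∨ s₂ = A ^ (N - 1) * b ^ (n' - n * N)) := by
  have key : ∀ s₁ s₂ : ℕ, 0 < s₁ → 0 < s₂ →
      s₁ * (A * a ^ m) ^ N * (B * b ^ n') = (A * a ^ m') * s₂ * (B * b ^ n) ^ N →
      (s₁ : ℝ) / s₂ * (((A * a ^ m : ℕ) : ℝ) / ((B * b ^ n : ℕ) : ℝ)) ^ N =
        ((A * a ^ m' : ℕ) : ℝ) / ((B * b ^ n' : ℕ) : ℝ) := by
    intro s₁ s₂ h1 h2 h3
    have h4 : (s₁ : ℝ) * ((A * a ^ m : ℕ) : ℝ) ^ N * ((B * b ^ n' : ℕ) : ℝ) =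
        ((A * a ^ m' : ℕ) : ℝ) * s₂ * ((B * b ^ n : ℕ) : ℝ) ^ N := by
      exact_mod_cast h3
    have p1 : (0 : ℝ) < s₂ := by exact_mod_cast h2
    have p2 : (0 : ℝ) < ((B * b ^ n : ℕ) : ℝ) := by exact_mod_cast Nat.mul_pos hB (pow_pos hb n)
    have p3 : (0 : ℝ) < ((B * b ^ n' : ℕ) : ℝ) := by exact_mod_cast Nat.mul_pos hB (pow_pos hb n')
    rw [div_pow, div_mul_div_comm, div_eq_div_iff (by positivity) p3.ne']
    rw [h4]
    ring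
  obtain ⟨M, rfl⟩ : ∃ M, N = M + 1 := ⟨N - 1, by omega⟩
  obtain ⟨r, rfl⟩ : ∃ r, n' = n * (M + 1) + r := ⟨n' - n * (M + 1), by omega⟩
  rcases le_total (m * (M + 1)) m' with h | h
  · obtain ⟨e, rfl⟩ : ∃ e, m' = m * (M + 1) + e := ⟨m' - m * (M + 1), by omega⟩
    refine ⟨B ^ M * a ^ e, A ^ M * b ^ r, by positivity, by positivity, ?_, Or.inr ?_⟩
    · refine key _ _ (by positivity) (by positivity) ?_
      ring
    · rw [Nat.add_sub_cancel, Nat.add_sub_cancel_left]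
  · obtain ⟨e, he⟩ : ∃ e, m * (M + 1) = m' + e := ⟨m * (M + 1) - m', by omega⟩
    refine ⟨B ^ M, A ^ M * b ^ r * a ^ e, by positivity, by positivity, ?_, Or.inl ?_⟩
    · refine key _ _ (by positivity) (by positivity) ?_
      have e1 : (A * a ^ m) ^ (M + 1) = A ^ (M + 1) * (a ^ m' * a ^ e) := by
        rw [mul_pow, ← pow_mul, he, pow_add a m' e]
      rw [e1]
      ring
    · rw [Nat.add_sub_cancel]

private theorem C5_sbound (A B y s₁ s₂ N r b : ℕ) (X X' : ℝ) (hA : 0 < A) (hB : 0 < B)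
    (h1 : 0 < s₁) (h2 : 0 < s₂) (hy : 0 < y) (hN : 1 ≤ N)
    (hX : 1 / 2 ≤ X ∧ X ≤ 3 / 2) (hX' : 1 / 2 ≤ X' ∧ X' ≤ 3 / 2)
    (he : (s₁ : ℝ) / s₂ * X ^ N = X') (hr : b ^ r ≤ y)
    (hs : s₁ = B ^ (N - 1) ∨ s₂ = A ^ (N - 1) * b ^ r) :
    (s₁ : ℝ) ≤ 2 * y * (4 * A * B) ^ N ∧ (s₂ : ℝ) ≤ 2 * y * (4 * A * B) ^ N := by
  have hA1 : (1 : ℝ) ≤ A := by exact_mod_cast hA
  have hB1 : (1 : ℝ) ≤ B := by exact_mod_cast hB
  have hy1 : (1 : ℝ) ≤ y := by exact_mod_cast hy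
  have p1 : (0 : ℝ) < s₁ := by exact_mod_cast h1
  have p2 : (0 : ℝ) < s₂ := by exact_mod_cast h2
  have hXp : 0 < X ^ N := pow_pos (by linarith [hX.1]) N
  have he2 : (s₁ : ℝ) * X ^ N = X' * s₂ := by
    rw [div_mul_eq_mul_div, div_eq_iff p2.ne'] at he
    exact he
  have hlo : (1 / 2 : ℝ) ^ N ≤ X ^ N := pow_le_pow_left₀ (by norm_num) hX.1 N
  have hup : X ^ N ≤ (2 : ℝ) ^ N := pow_le_pow_left₀ (by linarith [hX.1]) (by linarith [hX.2]) N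
  have hAN : (1 : ℝ) ≤ (A : ℝ) ^ N := one_le_pow₀ hA1
  have hBN : (1 : ℝ) ≤ (B : ℝ) ^ N := one_le_pow₀ hB1
  have h2N : (1 : ℝ) ≤ (2 : ℝ) ^ N := one_le_pow₀ (by norm_num)
  have eM : (4 * (A : ℝ) * B) ^ N = 2 ^ N * 2 ^ N * A ^ N * B ^ N := by
    rw [mul_pow, mul_pow, show (4 : ℝ) = 2 * 2 by norm_num, mul_pow]
  have hinv : (1 / 2 : ℝ) ^ N * 2 ^ N = 1 := by
    rw [← mul_pow]
    norm_num
  rcases hs with hs | hs
  · have hs1 : (s₁ : ℝ) ≤ B ^ N := by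
      rw [hs]
      push_cast
      exact pow_le_pow_right₀ hB1 (Nat.sub_le _ _)
    have hs2 : (s₂ : ℝ) ≤ 2 * (B ^ N * 2 ^ N) := by
      have h3 : (1 / 2 : ℝ) * s₂ ≤ X' * s₂ := mul_le_mul_of_nonneg_right hX'.1 p2.le
      have h4 : (s₁ : ℝ) * X ^ N ≤ B ^ N * 2 ^ N :=
        mul_le_mul hs1 hup hXp.le (by positivity)
      linarith
    have hM : (B : ℝ) ^ N * 2 ^ N ≤ y * (4 * A * B) ^ N := by
      rw [eM]
      have h5 : (1 : ℝ) ≤ y * (2 ^ N * A ^ N) :=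
        one_le_mul_of_one_le_of_one_le hy1 (one_le_mul_of_one_le_of_one_le h2N hAN)
      calc (B : ℝ) ^ N * 2 ^ N = 1 * (B ^ N * 2 ^ N) := by ring
        _ ≤ (y * (2 ^ N * A ^ N)) * (B ^ N * 2 ^ N) := mul_le_mul_of_nonneg_right h5 (by positivity)
        _ = _ := by ring
    constructor
    · have h6 : (B : ℝ) ^ N ≤ B ^ N * 2 ^ N := le_mul_of_one_le_right (by positivity) h2N
      have h7 : 0 ≤ (y : ℝ) * (4 * A * B) ^ N := by positivity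
      linarith
    · linarith
  · have hs2 : (s₂ : ℝ) ≤ A ^ N * y := by
      rw [hs]
      push_cast
      refine mul_le_mul (pow_le_pow_right₀ hA1 (Nat.sub_le _ _)) ?_ (by positivity) (by positivity)
      exact_mod_cast hr
    have hs1 : (s₁ : ℝ) ≤ 3 / 2 * (A ^ N * y) * 2 ^ N := by
      have h3 : (s₁ : ℝ) * (1 / 2) ^ N ≤ s₁ * X ^ N := mul_le_mul_of_nonneg_left hlo p1.le
      have h4 : X' * s₂ ≤ 3 / 2 * (A ^ N * y) := mul_le_mul hX'.2 hs2 p2.le (by norm_num)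
      have h5 : (s₁ : ℝ) * (1 / 2) ^ N ≤ 3 / 2 * (A ^ N * y) := by linarith
      have h6 := mul_le_mul_of_nonneg_right h5 (by positivity : (0 : ℝ) ≤ 2 ^ N)
      calc (s₁ : ℝ) = s₁ * ((1 / 2) ^ N * 2 ^ N) := by rw [hinv, mul_one]
        _ = s₁ * (1 / 2) ^ N * 2 ^ N := by ring
        _ ≤ _ := h6
    have hM : (A : ℝ) ^ N * y * 2 ^ N ≤ y * (4 * A * B) ^ N := by
      rw [eM]
      have h5 : (1 : ℝ) ≤ 2 ^ N * B ^ N := one_le_mul_of_one_le_of_one_le h2N hBN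
      calc (A : ℝ) ^ N * y * 2 ^ N = 1 * (A ^ N * y * 2 ^ N) := by ring
        _ ≤ (2 ^ N * B ^ N) * (A ^ N * y * 2 ^ N) := mul_le_mul_of_nonneg_right h5 (by positivity)
        _ = _ := by ring
    have h0 : 0 ≤ (A : ℝ) ^ N * y * 2 ^ N := by positivity
    constructor
    · linarith
    · have h6 : (A : ℝ) ^ N * y ≤ A ^ N * y * 2 ^ N := le_mul_of_one_le_right (by positivity) h2N
      linarith

private theorem C5_core (a b A B : ℕ) (ha : 2 ≤ a) (hb : 2 ≤ b) (hA : 0 < A) (hB : 0 < B)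
    (C : ℝ) (hC : 1 ≤ C) (m n m' n' : ℕ) (hn : 0 < n) (hnn : 100 * n ≤ n')
    (hbig : (20 * 2 ^ 17 * 16 * (A : ℝ) ^ 2 * B ^ 3 * C) ^ 10 < ((B * b ^ n : ℕ) : ℝ))
    (hne : A * a ^ m ≠ B * b ^ n)
    (h : |(A : ℝ) * a ^ m - B * b ^ n| ≤ C * Real.sqrt ((b : ℝ) ^ n))
    (h' : |(A : ℝ) * a ^ m' - B * b ^ n'| ≤ C * Real.sqrt ((b : ℝ) ^ n')) : False := by
  have hA1 : (1 : ℝ) ≤ A := by exact_mod_cast hA
  have hB1 : (1 : ℝ) ≤ B := by exact_mod_cast hB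
  have hr := C5_ratio a b A B hb hB C hC m n h
  have hr' := C5_ratio a b A B hb hB C hC m' n' h'
  have hN100 : 100 ≤ n' / n := (Nat.le_div_iff_mul_le hn).2 hnn
  have hNn : n * (n' / n) ≤ n' := Nat.mul_div_le n' n
  have hrem : n' - n * (n' / n) < n := by
    have h1 := Nat.mod_lt n' hn
    have h2 := Nat.div_add_mod n' n
    omega
  set N : ℕ := n' / n with hN
  set k : ℕ := N / 4 with hk
  obtain ⟨j, hj⟩ : ∃ j, k = j + 3 := ⟨k - 3, by omega⟩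
  set c : ℝ := 20 * 2 ^ 17 * 16 * (A : ℝ) ^ 2 * B ^ 3 * C with hc
  have hAB : (1 : ℝ) ≤ (A : ℝ) ^ 2 * B ^ 3 :=
    one_le_mul_of_one_le_of_one_le (one_le_pow₀ hA1) (one_le_pow₀ hB1)
  have hcC : 2 * C ≤ c := by
    have h1 : C ≤ (A : ℝ) ^ 2 * B ^ 3 * C := le_mul_of_one_le_left (by linarith) hAB
    have e1 : c = (20 * 2 ^ 17 * 16) * ((A : ℝ) ^ 2 * B ^ 3 * C) := by
      rw [hc]
      ring
    rw [e1]
    have h2 : 0 ≤ (A : ℝ) ^ 2 * B ^ 3 * C := by linarith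
    nlinarith
  have hc1 : 1 ≤ c := by linarith
  have hy0 : 0 < B * b ^ n := Nat.mul_pos hB (pow_pos (by omega) n)
  have hy0' : 0 < B * b ^ n' := Nat.mul_pos hB (pow_pos (by omega) n')
  have hyy : B * b ^ n ≤ B * b ^ n' :=
    Nat.mul_le_mul_left _ (Nat.pow_le_pow_right (by omega) (by omega))
  set y : ℕ := B * b ^ n with hy
  set y' : ℕ := B * b ^ n' with hy'
  have hyr : (0 : ℝ) < y := by exact_mod_cast hy0
  have hyr' : (0 : ℝ) < y' := by exact_mod_cast hy0'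
  set w : ℝ := Real.sqrt (y : ℝ) with hw
  set w' : ℝ := Real.sqrt (y' : ℝ) with hw'
  have hw0 : 0 < w := Real.sqrt_pos.2 hyr
  have hw0' : 0 < w' := Real.sqrt_pos.2 hyr'
  have hww : w ^ 2 = y := Real.sq_sqrt hyr.le
  have hww' : w' ^ 2 = y' := Real.sq_sqrt hyr'.le
  have hwle : w ≤ w' := Real.sqrt_le_sqrt (by exact_mod_cast hyy)
  have hcw : c ^ 5 < w := by
    rw [hw]
    apply Real.lt_sqrt_of_sq_lt
    calc (c ^ 5) ^ 2 = c ^ 10 := by rw [← pow_mul]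
      _ < (y : ℝ) := hbig
  have hcw1 : c ≤ w := by
    have h1 : c ≤ c ^ 5 := le_self_pow₀ hc1 (by norm_num)
    linarith
  have hw1 : 1 ≤ w := by linarith
  have hε : C / w ≤ 1 / 2 := by
    rw [div_le_div_iff₀ hw0 (by norm_num)]
    linarith
  have hε' : C / w' ≤ 1 / 2 := by
    rw [div_le_div_iff₀ hw0' (by norm_num)]
    linarith
  obtain ⟨s₁, s₂, h1, h2, h3, h4⟩ := C5_s a b A B m n m' n' N (by omega) (by omega) hA hB
    (by omega) hNn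
  rw [← hy, ← hy'] at h3
  have hX := abs_le.1 (hr.trans hε)
  have hX' := abs_le.1 (hr'.trans hε')
  have hbr : b ^ (n' - n * N) ≤ y := by
    refine le_trans (Nat.pow_le_pow_right (by omega) hrem.le) ?_
    exact Nat.le_mul_of_pos_left _ hB
  obtain ⟨hs1, hs2⟩ := C5_sbound A B y s₁ s₂ N (n' - n * N) b _ _ hA hB h1 h2 hy0 (by omega)
    ⟨by linarith [hX.1], by linarith [hX.2]⟩ ⟨by linarith [hX'.1], by linarith [hX'.2]⟩ h3 hbr h4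
  have hb0 := basic_ineq N k (by omega) (A * a ^ m) y s₁ s₂ (Nat.mul_pos hA (pow_pos (by omega) m))
    hy0 h1 h2 hne (C / w) (C / w') hε hε' hr (by rw [h3]; exact hr')
  set M : ℝ := 2 * y * (4 * A * B) ^ N with hM
  have hM0 : 0 ≤ M := by positivity
  have p1 : (0 : ℝ) < s₁ := by exact_mod_cast h1
  have p2 : (0 : ℝ) < s₂ := by exact_mod_cast h2
  have hC0 : 0 < C := by linarith
  have q1 : (s₁ : ℝ) ^ 2 ≤ M ^ 2 := pow_le_pow_left₀ p1.le hs1 2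
  have q2 : (s₁ : ℝ) * s₂ + 3 * (s₂ : ℝ) ^ 2 ≤ 4 * M ^ 2 := by
    have e1 : (s₁ : ℝ) * s₂ ≤ M * M := mul_le_mul hs1 hs2 p2.le hM0
    have e2 : (s₂ : ℝ) ^ 2 ≤ M ^ 2 := pow_le_pow_left₀ p2.le hs2 2
    nlinarith
  -- the second saving
  have hw'w : C / w' ≤ C * B ^ N / w ^ N := by
    have e1 : w ^ N ≤ w' * B ^ N := by
      refine le_of_sq_le_sq ?_ (by positivity)
      have e2 : (w ^ N) ^ 2 = (y : ℝ) ^ N := by rw [← hww]; ring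
      have e3 : (w' * B ^ N) ^ 2 = (y' : ℝ) * (B ^ N) ^ 2 := by rw [mul_pow, hww']
      rw [e2, e3]
      have e4 : y ^ N ≤ y' * (B ^ N) ^ 2 := by
        rw [hy, hy', mul_pow, ← pow_mul]
        have e5 : b ^ (n * N) ≤ b ^ n' := Nat.pow_le_pow_right (by omega) hNn
        calc B ^ N * b ^ (n * N) ≤ B ^ N * b ^ n' := Nat.mul_le_mul_left _ e5
          _ = 1 * (B ^ N * b ^ n') := by ring
          _ ≤ (B * B ^ N) * (B ^ N * b ^ n') :=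
            Nat.mul_le_mul_right _ (Nat.mul_pos hB (pow_pos hB N))
          _ = _ := by ring
      exact_mod_cast e4
    rw [div_le_div_iff₀ hw0' (pow_pos hw0 N)]
    calc C * w ^ N ≤ C * (w' * B ^ N) := mul_le_mul_of_nonneg_left e1 hC0.le
      _ = _ := by ring
  have hb1 : 1 ≤ (y : ℝ) ^ (k + 1) * 2 ^ (17 * N) *
      (M ^ 2 * (C / w) ^ (3 * k + 3) + 4 * M ^ 2 * (C * B ^ N / w ^ N)) := by
    refine hb0.trans (mul_le_mul_of_nonneg_left ?_ (by positivity))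
    refine add_le_add (mul_le_mul_of_nonneg_right q1 (by positivity)) ?_
    exact mul_le_mul q2 hw'w (by positivity) (by positivity)
  -- multiply by w ^ j
  have hN1 : 3 * k + 3 ≤ N := by omega
  have hN2 : N ≤ 5 * j := by omega
  have r1 : (C / w) ^ (3 * k + 3) ≤ (C * B) ^ N / w ^ (3 * k + 3) := by
    rw [div_pow]
    refine div_le_div_of_nonneg_right ?_ (by positivity)
    calc C ^ (3 * k + 3) ≤ C ^ N := pow_le_pow_right₀ hC hN1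
      _ ≤ (C * B) ^ N := pow_le_pow_left₀ hC0.le (le_mul_of_one_le_right hC0.le hB1) N
  have r2 : C * B ^ N / w ^ N ≤ (C * B) ^ N / w ^ (3 * k + 3) := by
    refine div_le_div₀ (by positivity) ?_ (by positivity) (pow_le_pow_right₀ hw1 hN1)
    rw [mul_pow]
    exact mul_le_mul_of_nonneg_right (le_self_pow₀ hC (by omega)) (by positivity)
  have hb2 : 1 ≤ (y : ℝ) ^ (k + 1) * 2 ^ (17 * N) * (5 * M ^ 2 * ((C * B) ^ N / w ^ (3 * k + 3))) := by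
    refine hb1.trans (mul_le_mul_of_nonneg_left ?_ (by positivity))
    have e1 := mul_le_mul_of_nonneg_left r1 (by positivity : 0 ≤ M ^ 2)
    have e2 := mul_le_mul_of_nonneg_left r2 (by positivity : 0 ≤ 4 * M ^ 2)
    linarith
  have e3 : (y : ℝ) ^ (k + 1) * 2 ^ (17 * N) * (5 * M ^ 2 * ((C * B) ^ N / w ^ (3 * k + 3))) =
      20 * (2 ^ 17 * 16 * (A : ℝ) ^ 2 * B ^ 3 * C) ^ N / w ^ j := by
    have e4 : w ^ (3 * k + 3) = w ^ (2 * k + 6) * w ^ j := by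
      rw [← pow_add]
      congr 1
      omega
    have e5 : (y : ℝ) ^ (k + 1) * M ^ 2 = w ^ (2 * k + 6) * (4 * ((4 * A * B) ^ N) ^ 2) := by
      rw [hM, ← hww]
      ring
    have e6 : (2 ^ 17 * 16 * (A : ℝ) ^ 2 * B ^ 3 * C) ^ N =
        2 ^ (17 * N) * ((4 * A * B) ^ N) ^ 2 * (C * B) ^ N := by
      have e7 : ((4 * (A : ℝ) * B) ^ N) ^ 2 = ((4 * (A : ℝ) * B) ^ 2) ^ N := by
        rw [← pow_mul, ← pow_mul, mul_comm N 2]
      rw [e7, pow_mul, ← mul_pow, ← mul_pow]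
      congr 1
      ring
    rw [e6, e4]
    have hwp : w ^ (2 * k + 6) ≠ 0 := (pow_pos hw0 _).ne'
    have hwj : w ^ j ≠ 0 := (pow_pos hw0 _).ne'
    calc (y : ℝ) ^ (k + 1) * 2 ^ (17 * N) * (5 * M ^ 2 * ((C * B) ^ N / (w ^ (2 * k + 6) * w ^ j)))
        = ((y : ℝ) ^ (k + 1) * M ^ 2) * (5 * 2 ^ (17 * N) * (C * B) ^ N) /
          (w ^ (2 * k + 6) * w ^ j) := by ring
      _ = w ^ (2 * k + 6) * (20 * (2 ^ (17 * N) * ((4 * A * B) ^ N) ^ 2 * (C * B) ^ N)) /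
          (w ^ (2 * k + 6) * w ^ j) := by
          rw [e5]
          ring
      _ = _ := mul_div_mul_left _ _ hwp
  rw [e3, le_div_iff₀ (pow_pos hw0 j), one_mul] at hb2
  have r3 : 20 * (2 ^ 17 * 16 * (A : ℝ) ^ 2 * B ^ 3 * C) ^ N ≤ c ^ N := by
    have e4 : c = 20 * (2 ^ 17 * 16 * (A : ℝ) ^ 2 * B ^ 3 * C) := by
      rw [hc]
      ring
    have hQ : 0 ≤ (2 ^ 17 * 16 * (A : ℝ) ^ 2 * B ^ 3 * C) := by positivity
    rw [e4]
    generalize (2 ^ 17 * 16 * (A : ℝ) ^ 2 * B ^ 3 * C) = Q at hQ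
    have h20 : (20 : ℝ) ≤ 20 ^ N := le_self_pow₀ (by norm_num) (by omega)
    calc 20 * Q ^ N ≤ 20 ^ N * Q ^ N := mul_le_mul_of_nonneg_right h20 (pow_nonneg hQ N)
      _ = (20 * Q) ^ N := (mul_pow _ _ _).symm
  have r4 : c ^ N ≤ (c ^ 5) ^ j := by
    rw [← pow_mul]
    exact pow_le_pow_right₀ hc1 hN2
  have r5 : (c ^ 5) ^ j < w ^ j := pow_lt_pow_left₀ hcw (pow_nonneg (by linarith) 5) (by omega)
  linarith

theorem sunit_finite (a b A B : ℕ) (ha : 2 ≤ a) (hb : 2 ≤ b) (hA : 0 < A) (hB : 0 < B)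
    (hind : ∀ m n : ℕ, 0 < m → a ^ m ≠ b ^ n) (C : ℝ) :
    {z : ℕ × ℕ | |(A : ℝ) * a ^ z.1 - B * b ^ z.2| ≤ C * Real.sqrt ((b : ℝ) ^ z.2)}.Finite := by
  set C' : ℝ := max C 1 with hC'
  have hC1 : 1 ≤ C' := le_max_right _ _
  suffices hfin : {z : ℕ × ℕ | |(A : ℝ) * a ^ z.1 - B * b ^ z.2| ≤
      C' * Real.sqrt ((b : ℝ) ^ z.2)}.Finite by
    refine hfin.subset ?_
    intro z hz
    have hz' : |(A : ℝ) * a ^ z.1 - B * b ^ z.2| ≤ C * Real.sqrt ((b : ℝ) ^ z.2) := hz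
    exact hz'.trans (mul_le_mul_of_nonneg_right (le_max_left _ _) (Real.sqrt_nonneg _))
  by_contra hinf
  have hb2 : (2 : ℝ) ≤ b := by exact_mod_cast hb
  obtain ⟨n0, hn0⟩ := pow_unbounded_of_one_lt
    ((20 * 2 ^ 17 * 16 * (A : ℝ) ^ 2 * B ^ 3 * C') ^ 10) (by linarith : (1 : ℝ) < b)
  obtain ⟨m, n, h1, h2, h3⟩ := C5_large a b A B ha hb hA hB hind C' hinf (n0 + 1)
  obtain ⟨m', n', h4, -, h6⟩ := C5_large a b A B ha hb hA hB hind C' hinf (100 * n)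
  refine C5_core a b A B ha hb hA hB C' hC1 m n m' n' (by omega) h4 ?_ h2 h3 h6
  refine hn0.trans_le ?_
  push_cast
  have hB1 : (1 : ℝ) ≤ B := by exact_mod_cast hB
  calc (b : ℝ) ^ n0 ≤ (b : ℝ) ^ n := pow_le_pow_right₀ (by linarith) (by omega)
    _ ≤ B * (b : ℝ) ^ n := le_mul_of_one_le_left (by positivity) hB1

end ETT
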