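import Pool.Agent.Lib.MP_a7ed83_ag.C.C5

/-! C6 (70 minutes). The same for rational coefficients, including dependent `a`, `b`.
PROOF. Multiply by a common denominator to get positive integers `A`, `B` (the constant `C`
changes). If `a`, `b` are multiplicatively independent (`∀ m n, 0 < m → a^m ≠ b^n`), use
`sunit_finite`. If `a^s = b^t` with `s, t > 0`: the numbers `a^m / b^n` (`m, n : ℕ`) are powers
`τ^e`, `e` an integer, of one real number `τ > 1` (`log a / log b = t/s`; `τ = a^(1/t)`, then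
`b = τ^s`, `a = τ^t`, `a^m / b^n = τ^(tm - sn)`), so there is `c > 0` such that
`(A/B) a^m / b^n ≠ 1` implies `|(A/B) a^m / b^n - 1| ≥ c`; then
`c B b^n ≤ |A a^m - B b^n| ≤ C sqrt(b^n)` bounds `n`, and then `m` is bounded too. -/

open Polynomial

namespace ETT

private theorem C6_dist (x : ℝ) : ∃ c : ℝ, 0 < c ∧ ∀ e : ℤ, (e : ℝ) + x ≠ 0 → c ≤ |(e : ℝ) + x| := by
  by_cases h0 : Int.fract x = 0
  · refine ⟨1, one_pos, fun e he => ?_⟩
    have h1 : (⌊x⌋ : ℝ) = x := by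
      have := Int.floor_add_fract x
      rw [h0, add_zero] at this
      exact this
    have h2 : (e : ℝ) + x = ((e + ⌊x⌋ : ℤ) : ℝ) := by
      rw [Int.cast_add, h1]
    rw [h2] at he ⊢
    have h3 : e + ⌊x⌋ ≠ 0 := by
      intro h
      apply he
      rw [h, Int.cast_zero]
    have h4 : 1 ≤ |e + ⌊x⌋| := Int.one_le_abs h3
    rw [← Int.cast_abs]
    exact_mod_cast h4
  · have hf0 : 0 < Int.fract x := lt_of_le_of_ne (Int.fract_nonneg x) (Ne.symm h0)
    have hf1 : Int.fract x < 1 := Int.fract_lt_one x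
    refine ⟨min (Int.fract x) (1 - Int.fract x), lt_min hf0 (by linarith), fun e _ => ?_⟩
    have h2 : (e : ℝ) + x = ((e + ⌊x⌋ : ℤ) : ℝ) + Int.fract x := by
      have h3 := Int.floor_add_fract x
      rw [Int.cast_add]
      linarith
    rw [h2]
    rcases le_or_gt 0 (e + ⌊x⌋) with h | h
    · have h3 : (0 : ℝ) ≤ ((e + ⌊x⌋ : ℤ) : ℝ) := by exact_mod_cast h
      refine (min_le_left _ _).trans ?_
      rw [abs_of_nonneg (by linarith)]
      linarith
    · have h3 : ((e + ⌊x⌋ : ℤ) : ℝ) ≤ -1 := by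
        have : e + ⌊x⌋ ≤ -1 := by omega
        exact_mod_cast this
      refine (min_le_right _ _).trans ?_
      rw [abs_of_nonpos (by linarith)]
      linarith

private theorem C6_exp {x c : ℝ} (hc : 0 < c) (h : c ≤ |x|) : 1 - Real.exp (-c) ≤ |Real.exp x - 1| := by
  rcases le_or_gt 0 x with hx | hx
  · rw [abs_of_nonneg hx] at h
    have h1 : c + 1 ≤ Real.exp c := Real.add_one_le_exp c
    have h2 : Real.exp c ≤ Real.exp x := Real.exp_le_exp.mpr h
    have h3 : -c + 1 ≤ Real.exp (-c) := Real.add_one_le_exp (-c)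
    rw [abs_of_nonneg (by linarith)]
    linarith
  · rw [abs_of_neg hx] at h
    have h1 : Real.exp x ≤ Real.exp (-c) := Real.exp_le_exp.mpr (by linarith)
    have h2 : Real.exp (-c) < 1 := by
      rw [Real.exp_lt_one_iff]
      linarith
    rw [abs_of_nonpos (by linarith)]
    linarith

private theorem C6_dep (a b : ℕ) (A B : ℝ) (ha : 2 ≤ a) (hb : 2 ≤ b) (hA : 0 < A) (hB : 0 < B)
    (s t : ℕ) (hs : 0 < s) (h : a ^ s = b ^ t) (C : ℝ) :
    {z : ℕ × ℕ | |A * (a : ℝ) ^ z.1 - B * (b : ℝ) ^ z.2| ≤ C * Real.sqrt ((b : ℝ) ^ z.2) ∧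
      A * (a : ℝ) ^ z.1 ≠ B * (b : ℝ) ^ z.2}.Finite := by
  have ha1 : (1 : ℝ) < a := by exact_mod_cast ha
  have hb1 : (1 : ℝ) < b := by exact_mod_cast hb
  have ha0 : (0 : ℝ) < a := by linarith
  have hb0 : (0 : ℝ) < b := by linarith
  have hs0 : (0 : ℝ) < s := by exact_mod_cast hs
  have hv : 0 < Real.log b := Real.log_pos hb1
  obtain ⟨τ, hτ⟩ : ∃ τ : ℝ, τ = Real.log b / s := ⟨_, rfl⟩
  have hτ0 : 0 < τ := by rw [hτ]; positivity
  have hbτ : Real.log b = s * τ := by rw [hτ]; field_simp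
  have haτ : Real.log a = t * τ := by
    have h1 : (s : ℝ) * Real.log a = t * Real.log b := by
      rw [← Real.log_pow, ← Real.log_pow]
      congr 1
      exact_mod_cast h
    rw [hbτ] at h1
    have h2 : (s : ℝ) * Real.log a = s * (t * τ) := by rw [h1]; ring
    exact mul_left_cancel₀ hs0.ne' h2
  obtain ⟨c1, hc1, hd⟩ := C6_dist ((Real.log A - Real.log B) / τ)
  obtain ⟨c3, hc3⟩ : ∃ c3 : ℝ, c3 = 1 - Real.exp (-(c1 * τ)) := ⟨_, rfl⟩
  have hc30 : 0 < c3 := by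
    rw [hc3]
    have : Real.exp (-(c1 * τ)) < 1 := by
      rw [Real.exp_lt_one_iff]
      have := mul_pos hc1 hτ0
      linarith
    linarith
  obtain ⟨M, hM⟩ : ∃ M : ℝ, M = |C| / (B * c3) := ⟨_, rfl⟩
  have hM0 : 0 ≤ M := by rw [hM]; positivity
  obtain ⟨K, hK⟩ := exists_nat_ge (max (M ^ 2) ((B * M ^ 2 + |C| * M) / A))
  have hK1 : M ^ 2 ≤ K := (le_max_left _ _).trans hK
  have hK2 : (B * M ^ 2 + |C| * M) / A ≤ K := (le_max_right _ _).trans hK
  apply (Set.finite_Iic ((K, K) : ℕ × ℕ)).subset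
  rintro ⟨m, n⟩ ⟨h1, h2⟩
  simp only at h1 h2
  have hY : (0 : ℝ) < (b : ℝ) ^ n := by positivity
  have hX : (0 : ℝ) < (a : ℝ) ^ m := by positivity
  have hx : A * (a : ℝ) ^ m = B * (b : ℝ) ^ n *
      Real.exp (((((m : ℤ) * t - n * s : ℤ) : ℝ) + (Real.log A - Real.log B) / τ) * τ) := by
    have e1 : ((((m : ℤ) * t - n * s : ℤ) : ℝ) + (Real.log A - Real.log B) / τ) * τ =
        Real.log A - Real.log B + (m * Real.log a - n * Real.log b) := by
      rw [haτ, hbτ]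
      push_cast
      field_simp
      ring
    rw [e1, Real.exp_add, Real.exp_sub, Real.exp_sub, Real.exp_log hA, Real.exp_log hB,
      Real.exp_nat_mul, Real.exp_nat_mul, Real.exp_log ha0, Real.exp_log hb0]
    field_simp
  obtain ⟨x, hxx⟩ : ∃ x : ℝ, x = (((m : ℤ) * t - n * s : ℤ) : ℝ) + (Real.log A - Real.log B) / τ := ⟨_, rfl⟩
  have hx0 : x ≠ 0 := by
    intro h0
    apply h2
    rw [hx, ← hxx, h0, zero_mul, Real.exp_zero, mul_one]
  have h3 : c1 ≤ |x| := by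
    rw [hxx]
    apply hd
    rw [← hxx]
    exact hx0
  have h4 : c1 * τ ≤ |x * τ| := by
    rw [abs_mul, abs_of_pos hτ0]
    exact mul_le_mul_of_nonneg_right h3 hτ0.le
  have h5 := C6_exp (mul_pos hc1 hτ0) h4
  rw [← hc3] at h5
  have h6 : B * (b : ℝ) ^ n * c3 ≤ |A * (a : ℝ) ^ m - B * (b : ℝ) ^ n| := by
    rw [hx, ← hxx]
    have e2 : B * (b : ℝ) ^ n * Real.exp (x * τ) - B * (b : ℝ) ^ n =
        B * (b : ℝ) ^ n * (Real.exp (x * τ) - 1) := by ring
    rw [e2, abs_mul, abs_of_pos (by positivity)]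
    exact mul_le_mul_of_nonneg_left h5 (by positivity)
  obtain ⟨w, hw⟩ : ∃ w : ℝ, w = Real.sqrt ((b : ℝ) ^ n) := ⟨_, rfl⟩
  have hw0 : 0 < w := by rw [hw]; exact Real.sqrt_pos.mpr hY
  have hww : w * w = (b : ℝ) ^ n := by rw [hw]; exact Real.mul_self_sqrt hY.le
  rw [← hw] at h1
  have hC : C * w ≤ |C| * w := mul_le_mul_of_nonneg_right (le_abs_self C) hw0.le
  have h7 : w ≤ M := by
    rw [hM, le_div_iff₀ (by positivity)]
    have h8 : (w * (B * c3)) * w ≤ |C| * w := by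
      calc (w * (B * c3)) * w = B * (w * w) * c3 := by ring
        _ = B * (b : ℝ) ^ n * c3 := by rw [hww]
        _ ≤ _ := h6.trans (h1.trans hC)
    exact le_of_mul_le_mul_right h8 hw0
  have h8 : (b : ℝ) ^ n ≤ M ^ 2 := by
    rw [← hww, sq]
    exact mul_le_mul h7 h7 hw0.le hM0
  have h9 : A * (a : ℝ) ^ m ≤ B * M ^ 2 + |C| * M := by
    have h10 := (abs_le.mp (h1.trans hC)).2
    have h11 : |C| * w ≤ |C| * M := mul_le_mul_of_nonneg_left h7 (abs_nonneg C)
    have h12 : B * (b : ℝ) ^ n ≤ B * M ^ 2 := mul_le_mul_of_nonneg_left h8 hB.le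
    linarith
  have h10 : (a : ℝ) ^ m ≤ K := by
    refine le_trans ?_ hK2
    rw [le_div_iff₀ hA]
    linarith
  have h11 : (b : ℝ) ^ n ≤ K := h8.trans hK1
  have h12 : a ^ m ≤ K := by exact_mod_cast h10
  have h13 : b ^ n ≤ K := by exact_mod_cast h11
  have h14 : m < a ^ m := Nat.lt_pow_self (by omega)
  have h15 : n < b ^ n := Nat.lt_pow_self (by omega)
  exact Set.mem_Iic.mpr (Prod.mk_le_mk.mpr ⟨by omega, by omega⟩)

theorem off_line_finite (a b : ℕ) (A B : ℚ) (ha : 2 ≤ a) (hb : 2 ≤ b) (hA : 0 < A) (hB : 0 < B)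
    (C : ℝ) :
    {z : ℕ × ℕ | |(A : ℝ) * a ^ z.1 - B * b ^ z.2| ≤ C * Real.sqrt ((b : ℝ) ^ z.2) ∧
      A * a ^ z.1 ≠ B * b ^ z.2}.Finite := by
  by_cases hind : ∀ m n : ℕ, 0 < m → a ^ m ≠ b ^ n
  · -- independent case
    obtain ⟨D, hD⟩ : ∃ D : ℕ, D = A.den * B.den := ⟨_, rfl⟩
    have hD0 : 0 < D := by rw [hD]; exact Nat.mul_pos A.den_pos B.den_pos
    have hD0' : (0 : ℝ) < D := by exact_mod_cast hD0
    have hAn : 0 < A.num := Rat.num_pos.mpr hA
    have hBn : 0 < B.num := Rat.num_pos.mpr hB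
    have hAe : (D : ℝ) * (A : ℝ) = ((A.num.toNat * B.den : ℕ) : ℝ) := by
      have h1 : (A : ℝ) = A.num / A.den := by
        exact_mod_cast (Rat.num_div_den A).symm
      have h2 : ((A.num.toNat : ℕ) : ℝ) = (A.num : ℝ) := by
        exact_mod_cast Int.toNat_of_nonneg hAn.le
      have h3 : (A.den : ℝ) ≠ 0 := by exact_mod_cast A.den_ne_zero
      rw [Nat.cast_mul, h2, hD, Nat.cast_mul, h1]
      field_simp
    have hBe : (D : ℝ) * (B : ℝ) = ((B.num.toNat * A.den : ℕ) : ℝ) := by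
      have h1 : (B : ℝ) = B.num / B.den := by
        exact_mod_cast (Rat.num_div_den B).symm
      have h2 : ((B.num.toNat : ℕ) : ℝ) = (B.num : ℝ) := by
        exact_mod_cast Int.toNat_of_nonneg hBn.le
      have h3 : (B.den : ℝ) ≠ 0 := by exact_mod_cast B.den_ne_zero
      rw [Nat.cast_mul, h2, hD, Nat.cast_mul, h1]
      field_simp
    have hfin := sunit_finite a b (A.num.toNat * B.den) (B.num.toNat * A.den) ha hb
      (Nat.mul_pos (by omega) B.den_pos) (Nat.mul_pos (by omega) A.den_pos) hind (D * C)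
    apply hfin.subset
    rintro z ⟨h1, -⟩
    rw [Set.mem_setOf_eq, ← hAe, ← hBe]
    have e1 : (D : ℝ) * A * (a : ℝ) ^ z.1 - D * B * (b : ℝ) ^ z.2 =
        D * (A * (a : ℝ) ^ z.1 - B * (b : ℝ) ^ z.2) := by ring
    rw [e1, abs_mul, abs_of_pos hD0', mul_assoc]
    exact mul_le_mul_of_nonneg_left h1 hD0'.le
  · push Not at hind
    obtain ⟨s, t, hs, h⟩ := hind
    have hA' : (0 : ℝ) < A := by exact_mod_cast hA
    have hB' : (0 : ℝ) < B := by exact_mod_cast hB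
    apply (C6_dep a b A B ha hb hA' hB' s t hs h C).subset
    rintro z ⟨h1, h2⟩
    refine ⟨h1, fun h3 => h2 ?_⟩
    exact_mod_cast h3

end ETT
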