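import Mathlib

/-! C7 (100 minutes). Hansel's lemma (elementary p-adic Skolem-Mahler-Lech).
PROOF. `p ≥ 3` prime. Let `v` be the `p`-adic valuation on `ℚ` (or use `padicValRat`, or work in
`ℤ_(p)`/`ℚ_[p]` with norms; `‖·‖` is ultrametric). For a polynomial `R = ∑ a_i X^i` over `ℚ` (or
`ℚ_[p]`) put `ω_k(R) = inf {v(a_j) : j ≥ k}`. (1) If `t : ℤ` and `R = (X - t) Q` then
`ω_k(Q) ≥ ω_(k+1)(R)`: `b_k = a_(k+1) + t a_(k+2) + t² a_(k+3) + ...` (`b` the coefficients of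
`Q`, finitely many terms), and `v(t) ≥ 0`. Hence if `R = (X - t₁) ⋯ (X - t_k) Q` then
`ω_0(Q) ≥ ω_k(R)`. (2) `v(p^j / j!) ≥ j (p-2)/(p-1) ≥ j/2` (Legendre:
`v(j!) ≤ j/(p-1) ≤ j/2`), and `X(X-1)...(X-j+1)` has integer coefficients. So
`R_n = ∑_(j ≤ n) d_j p^j X(X-1)...(X-j+1)/j!` satisfies `ω_k(R_n) ≥ k/2` for every `k` (the
coefficient of `X^i`, `i ≥ k`, only gets contributions from `j ≥ i ≥ k`). (3) Let `f` have infinitely many
zeros, `t : ℕ`, `k` arbitrary; take `k` zeros `t₁ < ... < t_k` and `n ≥ t, t_k`. Then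
`R_n(t_i) = f(t_i) = 0`, `R_n = ∏ (X - t_i) Q`, and `f(t) = R_n(t) = ∏ (t - t_i) Q(t)` has
`v(f(t)) ≥ ω_0(Q) ≥ ω_k(R_n) ≥ k/2`. As `k` is arbitrary, `f(t) = 0`. -/

open Polynomial

namespace ETT

private theorem C7_norm (p : ℕ) [hp : Fact p.Prime] (h3 : 3 ≤ p) (r : ℝ) (hr0 : 0 ≤ r) (hr : r ^ 2 = 1 / p) (j : ℕ) :
    ‖((p : ℚ_[p]) ^ j / (j.factorial : ℚ_[p]))‖ ≤ r ^ j := by
  have hp0 : (0 : ℝ) < p := by exact_mod_cast hp.1.pos
  have hp1 : (1 : ℝ) ≤ p := by exact_mod_cast hp.1.one_lt.le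
  have hv : 2 * padicValNat p j.factorial ≤ j := by
    have h1 := sub_one_mul_padicValNat_factorial (p := p) j
    have h2 : 2 * padicValNat p j.factorial ≤ (p - 1) * padicValNat p j.factorial :=
      Nat.mul_le_mul_right _ (by omega)
    omega
  have hf : (j.factorial : ℚ_[p]) ≠ 0 := by exact_mod_cast Nat.factorial_ne_zero j
  have h4 : ‖(j.factorial : ℚ_[p])‖ = ((p : ℝ) ^ (padicValNat p j.factorial))⁻¹ := by
    rw [Padic.norm_eq_zpow_neg_valuation hf, Padic.valuation_natCast, zpow_neg, zpow_natCast]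
  rw [norm_div, norm_pow, Padic.norm_p, h4, div_inv_eq_mul]
  rw [← sq_le_sq₀ (by positivity) (by positivity)]
  have h5 : (r ^ j) ^ 2 = ((p : ℝ)⁻¹) ^ j := by
    rw [← pow_mul, mul_comm j 2, pow_mul, hr, one_div]
  rw [h5, mul_pow, ← pow_mul, ← pow_mul, mul_comm (padicValNat p j.factorial) 2]
  calc ((p : ℝ)⁻¹) ^ (j * 2) * (p : ℝ) ^ (2 * padicValNat p j.factorial)
      ≤ ((p : ℝ)⁻¹) ^ (j * 2) * (p : ℝ) ^ j :=
        mul_le_mul_of_nonneg_left (pow_le_pow_right₀ hp1 hv) (by positivity)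
    _ = ((p : ℝ)⁻¹) ^ j := by
        rw [mul_two, pow_add, mul_assoc, ← mul_pow, inv_mul_cancel₀ hp0.ne', one_pow, mul_one]

private theorem C7_div {p : ℕ} [hp : Fact p.Prime] (t : ℚ_[p]) (ht : ‖t‖ ≤ 1) (Q : ℚ_[p][X]) (k : ℕ) (ε : ℝ)
    (hε : 0 ≤ ε) (h : ∀ j, k + 1 ≤ j → ‖((X - C t) * Q).coeff j‖ ≤ ε) : ∀ j, k ≤ j → ‖Q.coeff j‖ ≤ ε := by
  have hmain : ∀ n j, k ≤ j → Q.natDegree + 1 ≤ j + n → ‖Q.coeff j‖ ≤ ε := by
    intro n
    induction n with
    | zero =>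
      intro j _ h2
      rw [coeff_eq_zero_of_natDegree_lt (by omega), norm_zero]
      exact hε
    | succ n ih =>
      intro j h1 h2
      have h3 := ih (j + 1) (by omega) (by omega)
      have h4 := h (j + 1) (by omega)
      have h5 : Q.coeff j = ((X - C t) * Q).coeff (j + 1) + t * Q.coeff (j + 1) := by
        rw [sub_mul, coeff_sub, coeff_X_mul, coeff_C_mul]
        ring
      rw [h5]
      refine (Padic.nonarchimedean _ _).trans (max_le h4 ?_)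
      rw [norm_mul]
      calc ‖t‖ * ‖Q.coeff (j + 1)‖ ≤ 1 * ‖Q.coeff (j + 1)‖ := mul_le_mul_of_nonneg_right ht (norm_nonneg _)
        _ = ‖Q.coeff (j + 1)‖ := one_mul _
        _ ≤ ε := h3
  intro j hj
  exact hmain (Q.natDegree + 1) j hj (by omega)

private theorem C7_divs {p : ℕ} [hp : Fact p.Prime] (ε : ℝ) (hε : 0 ≤ ε) (S : Finset ℕ) :
    ∀ (Q : ℚ_[p][X]) (m : ℕ), (∀ j, m + S.card ≤ j → ‖((∏ t ∈ S, (X - C ((t : ℕ) : ℚ_[p]))) * Q).coeff j‖ ≤ ε) →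
    ∀ j, m ≤ j → ‖Q.coeff j‖ ≤ ε := by
  classical
  induction S using Finset.induction_on with
  | empty =>
    intro Q m h j hj
    have := h j (by simpa using hj)
    simpa using this
  | insert a S ha ih =>
    intro Q m h
    refine ih Q m ?_
    rw [Finset.card_insert_of_notMem ha, Finset.prod_insert ha] at h
    refine C7_div ((a : ℕ) : ℚ_[p]) ?_ _ (m + S.card) ε hε ?_
    · exact_mod_cast Padic.norm_int_le_one (p := p) (a : ℤ)
    · intro j hj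
      rw [← mul_assoc]
      exact h j (by omega)

theorem hansel (p : ℕ) (hp : p.Prime) (h3 : 3 ≤ p) (d : ℕ → ℤ)
    (hinf : {k : ℕ | ∑ j ∈ Finset.range (k + 1), (k.choose j : ℤ) * (p : ℤ) ^ j * d j = 0}.Infinite)
    (k : ℕ) : ∑ j ∈ Finset.range (k + 1), (k.choose j : ℤ) * (p : ℤ) ^ j * d j = 0 := by
  have : Fact p.Prime := ⟨hp⟩
  have hp0 : (0 : ℝ) < p := by exact_mod_cast hp.pos
  obtain ⟨f, hf⟩ : ∃ f : ℕ → ℤ, f = fun k => ∑ j ∈ Finset.range (k + 1), (k.choose j : ℤ) * (p : ℤ) ^ j * d j := ⟨_, rfl⟩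
  have hfk : ∀ k, ∑ j ∈ Finset.range (k + 1), (k.choose j : ℤ) * (p : ℤ) ^ j * d j = f k := fun k => by rw [hf]
  rw [hfk]
  simp only [hfk] at hinf
  -- the number `r`
  obtain ⟨r, hr⟩ : ∃ r : ℝ, r = Real.sqrt (1 / p) := ⟨_, rfl⟩
  have hr0 : 0 ≤ r := by rw [hr]; exact Real.sqrt_nonneg _
  have hr2 : r ^ 2 = 1 / p := by rw [hr]; exact Real.sq_sqrt (by positivity)
  have hr1 : r < 1 := by
    have h1 : (1 : ℝ) / p < 1 := by
      rw [div_lt_one hp0]
      exact_mod_cast hp.one_lt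
    nlinarith
  -- the polynomials
  let R : ℕ → ℚ_[p][X] := fun n => ∑ j ∈ Finset.range (n + 1),
    C ((d j : ℚ_[p]) * ((p : ℚ_[p]) ^ j / (j.factorial : ℚ_[p]))) * descPochhammer ℚ_[p] j
  have hReval : ∀ n m : ℕ, m ≤ n → (R n).eval (m : ℚ_[p]) = ((f m : ℤ) : ℚ_[p]) := by
    intro n m hmn
    have h1 : (R n).eval (m : ℚ_[p]) = ∑ j ∈ Finset.range (n + 1), ((m.choose j : ℤ) * (p : ℤ) ^ j * d j : ℤ) := by
      show (∑ j ∈ Finset.range (n + 1), _ : ℚ_[p][X]).eval (m : ℚ_[p]) = _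
      rw [eval_finsetSum]
      push_cast
      refine Finset.sum_congr rfl fun j _ => ?_
      rw [eval_mul, eval_C, descPochhammer_eval_eq_descFactorial, Nat.descFactorial_eq_factorial_mul_choose]
      have hj : (j.factorial : ℚ_[p]) ≠ 0 := by exact_mod_cast Nat.factorial_ne_zero j
      push_cast
      field_simp
    rw [h1, ← hfk m]
    have h2 : ∑ j ∈ Finset.range (n + 1), ((m.choose j : ℤ) * (p : ℤ) ^ j * d j : ℤ) =
        ∑ j ∈ Finset.range (m + 1), ((m.choose j : ℤ) * (p : ℤ) ^ j * d j : ℤ) := by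
      symm
      refine Finset.sum_subset (Finset.range_subset_range.2 (by omega)) fun j _ hj => ?_
      rw [Finset.mem_range] at hj
      rw [Nat.choose_eq_zero_of_lt (by omega)]
      simp
    exact_mod_cast congrArg (fun z : ℤ => (z : ℚ_[p])) h2
  have hRcoeff : ∀ n K i : ℕ, K ≤ i → ‖(R n).coeff i‖ ≤ r ^ K := by
    intro n K i hKi
    show ‖(∑ j ∈ Finset.range (n + 1), _ : ℚ_[p][X]).coeff i‖ ≤ _
    rw [finsetSum_coeff]
    refine IsUltrametricDist.norm_sum_le_of_forall_le_of_nonneg (by positivity) fun j _ => ?_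
    rw [coeff_C_mul]
    rcases Nat.lt_or_ge j i with h1 | h1
    · rw [coeff_eq_zero_of_natDegree_lt (by rw [descPochhammer_natDegree]; exact h1), mul_zero, norm_zero]
      positivity
    · have h2 : ‖(descPochhammer ℚ_[p] j).coeff i‖ ≤ 1 := by
        rw [← descPochhammer_map (Int.castRingHom ℚ_[p]) j, coeff_map]
        exact Padic.norm_int_le_one _
      rw [norm_mul, norm_mul]
      calc ‖(d j : ℚ_[p])‖ * ‖(p : ℚ_[p]) ^ j / (j.factorial : ℚ_[p])‖ * ‖(descPochhammer ℚ_[p] j).coeff i‖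
          ≤ 1 * r ^ j * 1 := by
            refine mul_le_mul (mul_le_mul (Padic.norm_int_le_one _) (C7_norm p h3 r hr0 hr2 j) (norm_nonneg _) zero_le_one)
              h2 (norm_nonneg _) (by positivity)
        _ = r ^ j := by ring
        _ ≤ r ^ K := pow_le_pow_of_le_one hr0 hr1.le (by omega)
  -- the bound
  have hbd : ∀ K : ℕ, ‖((f k : ℤ) : ℚ_[p])‖ ≤ r ^ K := by
    intro K
    obtain ⟨S, hS1, hS2⟩ := hinf.exists_subset_card_eq K
    obtain ⟨n, hn⟩ : ∃ n : ℕ, n = k + S.sup id := ⟨_, rfl⟩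
    have hSn : ∀ t ∈ S, t ≤ n := fun t ht => by
      have : id t ≤ S.sup id := Finset.le_sup ht
      simp only [id] at this
      omega
    have hdvd : (∏ t ∈ S, (X - C ((t : ℕ) : ℚ_[p]))) ∣ R n := by
      refine Finset.prod_dvd_of_coprime ?_ ?_
      · exact (pairwise_coprime_X_sub_C (s := fun t : ℕ => (t : ℚ_[p])) Nat.cast_injective).set_pairwise _
      · intro t ht
        rw [dvd_iff_isRoot, IsRoot.def, hReval n t (hSn t ht)]
        have h1 : f t = 0 := hS1 ht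
        rw [h1, Int.cast_zero]
    obtain ⟨Q, hQ⟩ := hdvd
    have hQc : ∀ j, 0 ≤ j → ‖Q.coeff j‖ ≤ r ^ K := by
      refine C7_divs (r ^ K) (by positivity) S Q 0 fun j hj => ?_
      rw [← hQ]
      exact hRcoeff n K j (by omega)
    have hkn : k ≤ n := by omega
    rw [← hReval n k hkn, hQ, eval_mul, norm_mul]
    have h1 : ‖(∏ t ∈ S, (X - C ((t : ℕ) : ℚ_[p]))).eval (k : ℚ_[p])‖ ≤ 1 := by
      have h2 : (∏ t ∈ S, (X - C ((t : ℕ) : ℚ_[p]))).eval (k : ℚ_[p]) = ((∏ t ∈ S, ((k : ℤ) - t) : ℤ) : ℚ_[p]) := by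
        rw [eval_prod]
        push_cast
        refine Finset.prod_congr rfl fun t _ => ?_
        rw [eval_sub, eval_X, eval_C]
      rw [h2]
      exact Padic.norm_int_le_one _
    have h2 : ‖Q.eval (k : ℚ_[p])‖ ≤ r ^ K := by
      rw [eval_eq_sum_range]
      refine IsUltrametricDist.norm_sum_le_of_forall_le_of_nonneg (by positivity) fun j _ => ?_
      rw [norm_mul]
      have h3 : ‖(k : ℚ_[p]) ^ j‖ ≤ 1 := by
        rw [norm_pow]
        refine pow_le_one₀ (norm_nonneg _) ?_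
        exact_mod_cast Padic.norm_int_le_one (p := p) (k : ℤ)
      calc ‖Q.coeff j‖ * ‖(k : ℚ_[p]) ^ j‖ ≤ r ^ K * 1 :=
            mul_le_mul (hQc j (Nat.zero_le _)) h3 (norm_nonneg _) (by positivity)
        _ = r ^ K := mul_one _
    calc _ ≤ 1 * r ^ K := mul_le_mul h1 h2 (norm_nonneg _) zero_le_one
      _ = r ^ K := one_mul _
  have hlim : Filter.Tendsto (fun K : ℕ => r ^ K) Filter.atTop (nhds 0) := tendsto_pow_atTop_nhds_zero_of_lt_one hr0 hr1
  have h0 : ‖((f k : ℤ) : ℚ_[p])‖ ≤ 0 := ge_of_tendsto' hlim hbd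
  have h1 : ((f k : ℤ) : ℚ_[p]) = 0 := norm_le_zero_iff.1 h0
  exact_mod_cast h1

end ETT
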