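import Pool.Agent.Lib.MP_a7ed83_ag.C.C7
import Pool.Agent.Lib.MP_a7ed83_ag.B.B12

/-! C8 (100 minutes). Skolem-Mahler-Lech for integer sequences with a monic recurrence.
PROOF. Write `P = X^e P₁` with `P₁(0) ≠ 0`, `P₁` monic; the sequence `t (· + e)` satisfies the
recurrence `P₁`, and `EP` is not changed by a shift. So let `P(0) ≠ 0`; if `P = 1` the sequence is 0.
Let `R = AdjoinRoot P` (free over `ℤ` with basis `1, ξ, .., ξ^(r-1)`), `lam : R →+ ℤ` with
`lam (ξ^i) = t i` for all `i` (define it on the basis; the recurrence gives all `i`: or define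
`lam` on `ℤ[X]` by `X^i ↦ t i`, it kills the ideal `(P)`). Choose a prime `p ≥ 3` not dividing
`P(0)`. Then `ξ` is a unit in the finite ring `R / pR` (`P(ξ) = 0`, `ξ * (...) = -P(0)`, a unit mod
`p`), so there are `L > 0` and `Y : R` with `ξ^L = 1 + p Y`. For `0 ≤ r < L`:
`ξ^(r + L k) = ξ^r ∑_j C(k,j) p^j Y^j`, so `t (r + L k) = ∑_j C(k,j) p^j d_j`, `d_j = lam (ξ^r Y^j)`,
and by `hansel` the set of the `k` with `t (L k + r) = 0` is finite or everything, in particular
EP (`EP.of_finite`, `EP.univ`). Use `EP.of_residues` (B12). -/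

open Polynomial

namespace ETT

/-- the linear functional `X ^ i ↦ t i` -/
private noncomputable def C8_lam (t : ℕ → ℤ) : ℤ[X] →ₗ[ℤ] ℤ := (Polynomial.basisMonomials ℤ).constr ℤ t

private theorem C8_lam_X (t : ℕ → ℤ) (i : ℕ) : C8_lam t (X ^ i) = t i := by
  unfold C8_lam
  have h : (X : ℤ[X]) ^ i = (Polynomial.basisMonomials ℤ) i := by
    rw [Polynomial.coe_basisMonomials]
    exact (Polynomial.monomial_one_right_eq_X_pow i).symm
  rw [h, Module.Basis.constr_basis]

private theorem C8_lam_CX (t : ℕ → ℤ) (a : ℤ) (f : ℤ[X]) : C8_lam t (C a * f) = a * C8_lam t f := by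
  rw [← Polynomial.smul_eq_C_mul, map_smul, smul_eq_mul]

private theorem C8_kill (P : ℤ[X]) (t : ℕ → ℤ)
    (h : ∀ n, ∑ j ∈ Finset.range (P.natDegree + 1), P.coeff j * t (n + j) = 0) (Q : ℤ[X]) :
    C8_lam t (P * Q) = 0 := by
  induction Q using Polynomial.induction_on' with
  | add p q hp hq => rw [mul_add, map_add, hp, hq, add_zero]
  | monomial n a =>
    have h1 : P * monomial n a = C a * (P * X ^ n) := by
      rw [← Polynomial.C_mul_X_pow_eq_monomial]
      ring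
    rw [h1, C8_lam_CX]
    have h2 : P * X ^ n = ∑ j ∈ Finset.range (P.natDegree + 1), C (P.coeff j) * X ^ (n + j) := by
      conv_lhs => rw [P.as_sum_range_C_mul_X_pow]
      rw [Finset.sum_mul]
      refine Finset.sum_congr rfl fun j _ => ?_
      rw [mul_assoc, ← pow_add, add_comm j n]
    rw [h2, map_sum]
    have h3 : ∑ j ∈ Finset.range (P.natDegree + 1), C8_lam t (C (P.coeff j) * X ^ (n + j)) =
        ∑ j ∈ Finset.range (P.natDegree + 1), P.coeff j * t (n + j) := by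
      refine Finset.sum_congr rfl fun j _ => ?_
      rw [C8_lam_CX, C8_lam_X]
    rw [h3, h n, mul_zero]

/-- `X ^ L = 1 + p Y` modulo `P` -/
private theorem C8_order (P : ℤ[X]) (hP : P.Monic) (h0 : P.coeff 0 ≠ 0) :
    ∃ p : ℕ, p.Prime ∧ 3 ≤ p ∧ ∃ (L : ℕ) (Y : ℤ[X]), 0 < L ∧ P ∣ X ^ L - (C (p : ℤ) * Y + 1) := by
  obtain ⟨p, hp3, hp⟩ := Nat.exists_infinite_primes ((P.coeff 0).natAbs + 3)
  haveI : Fact p.Prime := ⟨hp⟩
  refine ⟨p, hp, by omega, ?_⟩
  set φ : ℤ →+* ZMod p := Int.castRingHom (ZMod p) with hφ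
  set Pb : (ZMod p)[X] := P.map φ with hPb
  have hPbm : Pb.Monic := hP.map φ
  haveI : Module.Finite (ZMod p) (AdjoinRoot Pb) := hPbm.finite_adjoinRoot
  haveI : Finite (AdjoinRoot Pb) := Module.finite_of_finite (ZMod p)
  have hc : φ (P.coeff 0) ≠ 0 := by
    intro hz
    rw [hφ, eq_intCast, ZMod.intCast_zmod_eq_zero_iff_dvd] at hz
    have h1 : p ∣ (P.coeff 0).natAbs := Int.natCast_dvd.1 hz
    have h2 := Nat.le_of_dvd (Int.natAbs_pos.2 h0) h1
    omega
  -- the root is a unit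
  have hunit : IsUnit (AdjoinRoot.root Pb) := by
    have h1 : AdjoinRoot.mk Pb (Pb.divX * X + C (Pb.coeff 0)) = 0 := by
      rw [Polynomial.divX_mul_X_add, AdjoinRoot.mk_self]
    rw [map_add, map_mul, AdjoinRoot.mk_X, AdjoinRoot.mk_C] at h1
    have h2 : AdjoinRoot.root Pb * (-(AdjoinRoot.mk Pb Pb.divX)) = AdjoinRoot.of Pb (Pb.coeff 0) := by
      linear_combination -h1
    have h3 : IsUnit (AdjoinRoot.of Pb (Pb.coeff 0)) := by
      apply IsUnit.map
      rw [hPb, Polynomial.coeff_map]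
      exact hc.isUnit
    rw [← h2] at h3
    exact isUnit_of_mul_isUnit_left h3
  obtain ⟨u, hu⟩ := hunit
  have hpow : AdjoinRoot.root Pb ^ orderOf u = 1 := by
    rw [← hu, ← Units.val_pow_eq_pow_val, pow_orderOf_eq_one, Units.val_one]
  have hL : 0 < orderOf u := orderOf_pos u
  set L : ℕ := orderOf u with hLdef
  have hdvd : Pb ∣ X ^ L - 1 := by
    rw [← AdjoinRoot.mk_eq_zero, map_sub, map_pow, AdjoinRoot.mk_X, hpow, map_one, sub_self]
  obtain ⟨qb, hqb⟩ := hdvd
  obtain ⟨Q, hQ⟩ := Polynomial.map_surjective φ (ZMod.intCast_surjective (n := p)) qb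
  have hmap : (X ^ L - 1 - P * Q).map φ = 0 := by
    rw [Polynomial.map_sub, Polynomial.map_mul, hQ, Polynomial.map_sub, Polynomial.map_pow,
      Polynomial.map_X, Polynomial.map_one, hqb, sub_self]
  have hCd : C (p : ℤ) ∣ (X ^ L - 1 - P * Q) := by
    rw [Polynomial.C_dvd_iff_dvd_coeff]
    intro i
    have h1 : φ ((X ^ L - 1 - P * Q).coeff i) = 0 := by
      rw [← Polynomial.coeff_map, hmap, Polynomial.coeff_zero]
    rwa [hφ, eq_intCast, ZMod.intCast_zmod_eq_zero_iff_dvd] at h1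
  obtain ⟨Y, hY⟩ := hCd
  refine ⟨L, Y, hL, Q, ?_⟩
  linear_combination hY

private theorem C8_shift (t : ℕ → ℤ) (h : EP {n | t (n + 1) = 0}) : EP {n | t n = 0} := by
  obtain ⟨L, N, hL, h⟩ := h
  refine ⟨L, N + 1, hL, fun n hn => ?_⟩
  obtain ⟨m, rfl⟩ : ∃ m, n = m + 1 := ⟨n - 1, by omega⟩
  have h1 := h m (by omega)
  simp only [Set.mem_ofPred_eq] at h1 ⊢
  rw [h1]
  have h2 : m + L + 1 = m + 1 + L := by ring
  rw [h2]

private theorem C8_main (P : ℤ[X]) (hP : P.Monic) (h0 : P.coeff 0 ≠ 0) (t : ℕ → ℤ)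
    (h : ∀ n, ∑ j ∈ Finset.range (P.natDegree + 1), P.coeff j * t (n + j) = 0) :
    EP {n | t n = 0} := by
  obtain ⟨p, hp, hp3, L, Y, hL, hdvd⟩ := C8_order P hP h0
  refine EP.of_residues L hL fun r _ => ?_
  -- the formula
  have hform : ∀ k : ℕ, t (L * k + r) =
      ∑ j ∈ Finset.range (k + 1), (k.choose j : ℤ) * (p : ℤ) ^ j * C8_lam t (X ^ r * Y ^ j) := by
    intro k
    have h1 : P ∣ X ^ r * ((X ^ L) ^ k) - X ^ r * (C (p : ℤ) * Y + 1) ^ k := by
      rw [← mul_sub]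
      exact Dvd.dvd.mul_left (hdvd.trans (sub_dvd_pow_sub_pow _ _ k)) _
    obtain ⟨Q, hQ⟩ := h1
    have h2 : t (L * k + r) = C8_lam t (X ^ r * (C (p : ℤ) * Y + 1) ^ k) := by
      have h3 : (X : ℤ[X]) ^ (L * k + r) = X ^ r * (C (p : ℤ) * Y + 1) ^ k + P * Q := by
        rw [← hQ, pow_add, pow_mul]
        ring
      rw [← C8_lam_X t, h3, map_add, C8_kill P t h, add_zero]
    rw [h2, add_pow, Finset.mul_sum, map_sum]
    refine Finset.sum_congr rfl fun j _ => ?_
    have h4 : (X : ℤ[X]) ^ r * ((C (p : ℤ) * Y) ^ j * 1 ^ (k - j) * ((k.choose j : ℕ) : ℤ[X])) =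
        C ((k.choose j : ℤ) * (p : ℤ) ^ j) * (X ^ r * Y ^ j) := by
      have h5 : (C ((k.choose j : ℕ) : ℤ) : ℤ[X]) = ((k.choose j : ℕ) : ℤ[X]) := by
        exact_mod_cast Polynomial.C_eq_natCast (R := ℤ) (k.choose j)
      rw [one_pow, mul_one, mul_pow, C_mul, C_pow, h5]
      ring
    rw [h4, C8_lam_CX]
  by_cases hinf : {k : ℕ | ∑ j ∈ Finset.range (k + 1),
      (k.choose j : ℤ) * (p : ℤ) ^ j * C8_lam t (X ^ r * Y ^ j) = 0}.Infinite
  · have h1 := hansel p hp hp3 (fun j => C8_lam t (X ^ r * Y ^ j)) hinf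
    have h2 : {l : ℕ | L * l + r ∈ {n | t n = 0}} = Set.univ := by
      ext l
      simp only [Set.mem_ofPred_eq, Set.mem_univ, iff_true]
      rw [hform l]
      exact h1 l
    rw [h2]
    exact EP.univ
  · rw [Set.not_infinite] at hinf
    refine EP.of_finite (hinf.subset ?_)
    intro l hl
    simp only [Set.mem_ofPred_eq] at hl ⊢
    rw [← hform l]
    exact hl

theorem sml_int (P : ℤ[X]) (hP : P.Monic) (t : ℕ → ℤ)
    (h : ∀ n, ∑ j ∈ Finset.range (P.natDegree + 1), P.coeff j * t (n + j) = 0) :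
    EP {n | t n = 0} := by
  obtain ⟨d, hd⟩ : ∃ d, P.natDegree = d := ⟨_, rfl⟩
  induction d generalizing P t with
  | zero =>
    have h1 : P = 1 := Polynomial.eq_one_of_monic_natDegree_zero hP hd
    refine C8_main P hP ?_ t h
    rw [h1, Polynomial.coeff_one_zero]
    exact one_ne_zero
  | succ d ih =>
    by_cases h0 : P.coeff 0 = 0
    · obtain ⟨P1, rfl⟩ : X ∣ P := Polynomial.X_dvd_iff.2 h0
      have hP1 : P1.Monic := Polynomial.Monic.of_mul_monic_left Polynomial.monic_X hP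
      have hdeg : P1.natDegree = d := by
        rw [Polynomial.natDegree_X_mul hP1.ne_zero] at hd
        omega
      refine C8_shift t (ih P1 hP1 (fun n => t (n + 1)) ?_ hdeg)
      intro n
      have h1 := h n
      rw [hd, Finset.sum_range_succ', h0, zero_mul, add_zero] at h1
      rw [hdeg, ← h1]
      refine Finset.sum_congr rfl fun j _ => ?_
      rw [Polynomial.coeff_X_mul]
      have h2 : n + j + 1 = n + (j + 1) := by ring
      rw [h2]
    · exact C8_main P hP h0 t h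

end ETT
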